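import Mathlib

namespace Pool.Agent.V11293.DH

open SimpleGraph

universe u

/-- A graph is distance-hereditary if distances in connected induced subgraphs are the distances
in the whole graph. -/
def DistanceHereditary {V : Type u} (G : SimpleGraph V) : Prop :=
  ∀ s : Set V, (G.induce s).Connected →
    ∀ u v : s, (G.induce s).edist u v = G.edist (u : V) (v : V)

/-- `Wk G s n x y`: there is a walk of length `n` from `x` to `y` with all vertices in `s`. -/
def Wk {V : Type u} (G : SimpleGraph V) (s : Set V) : ℕ → V → V → Prop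
  | 0, x, y => x = y ∧ x ∈ s
  | n + 1, x, y => x ∈ s ∧ ∃ z, G.Adj x z ∧ Wk G s n z y

variable {V : Type u} {G : SimpleGraph V} {s t : Set V}

theorem Wk.left_mem : ∀ {n : ℕ} {x y : V}, Wk G s n x y → x ∈ s
  | 0, _, _, h => h.2
  | _ + 1, _, _, h => h.1

theorem Wk.right_mem : ∀ {n : ℕ} {x y : V}, Wk G s n x y → y ∈ s
  | 0, _, _, h => h.1 ▸ h.2
  | _ + 1, _, _, h => by
    obtain ⟨_, z, _, hz⟩ := h
    exact hz.right_mem

theorem Wk.refl {x : V} (h : x ∈ s) : Wk G s 0 x x := ⟨rfl, h⟩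

theorem Wk.cons {n : ℕ} {x y z : V} (hx : x ∈ s) (h : G.Adj x z) (hz : Wk G s n z y) :
    Wk G s (n + 1) x y := ⟨hx, z, h, hz⟩

theorem Wk.trans : ∀ {m : ℕ} {n : ℕ} {x y z : V}, Wk G s m x y → Wk G s n y z →
    Wk G s (m + n) x z
  | 0, n, x, y, z, h1, h2 => by
    rw [h1.1, Nat.zero_add]; exact h2
  | m + 1, n, x, y, z, h1, h2 => by
    obtain ⟨hx, w, hw, h⟩ := h1
    have := h.trans h2
    rw [Nat.add_right_comm]
    exact ⟨hx, w, hw, this⟩

theorem Wk.single {x y : V} (hx : x ∈ s) (hy : y ∈ s) (h : G.Adj x y) : Wk G s 1 x y :=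
  Wk.cons hx h (Wk.refl hy)

theorem Wk.symm : ∀ {n : ℕ} {x y : V}, Wk G s n x y → Wk G s n y x
  | 0, x, y, h => ⟨h.1.symm, h.1 ▸ h.2⟩
  | n + 1, x, y, h => by
    obtain ⟨hx, z, hz, h⟩ := h
    exact h.symm.trans (Wk.single h.left_mem hx hz.symm)

theorem Wk.mono (hst : s ⊆ t) : ∀ {n : ℕ} {x y : V}, Wk G s n x y → Wk G t n x y
  | 0, x, y, h => ⟨h.1, hst h.2⟩
  | n + 1, x, y, h => by
    obtain ⟨hx, z, hz, h⟩ := h
    exact ⟨hst hx, z, hz, h.mono hst⟩

theorem Wk.of_walk {x y : s} (p : (G.induce s).Walk x y) : Wk G s p.length x y := by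
  induction p with
  | nil => exact ⟨rfl, Subtype.property _⟩
  | cons h p ih => exact ⟨Subtype.property _, _, h, ih⟩

theorem Wk.to_walk : ∀ {n : ℕ} {x y : V}, Wk G s n x y → ∀ (hx : x ∈ s) (hy : y ∈ s),
    ∃ p : (G.induce s).Walk ⟨x, hx⟩ ⟨y, hy⟩, p.length = n
  | 0, x, y, h, hx, hy => by
    obtain ⟨rfl, _⟩ := h
    exact ⟨Walk.nil, rfl⟩
  | n + 1, x, y, h, hx, hy => by
    obtain ⟨_, z, hz, h⟩ := h
    obtain ⟨p, hp⟩ := h.to_walk h.left_mem hy
    have hadj : (G.induce s).Adj ⟨x, hx⟩ ⟨z, h.left_mem⟩ := hz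
    exact ⟨Walk.cons hadj p, by simp [hp]⟩

theorem Wk.of_walk_univ {x y : V} (p : G.Walk x y) : Wk G Set.univ p.length x y := by
  induction p with
  | nil => exact ⟨rfl, trivial⟩
  | cons h p ih => exact ⟨trivial, _, h, ih⟩

theorem Wk.to_walk_univ : ∀ {n : ℕ} {x y : V}, Wk G Set.univ n x y →
    ∃ p : G.Walk x y, p.length = n
  | 0, x, y, h => by
    obtain ⟨rfl, _⟩ := h
    exact ⟨Walk.nil, rfl⟩
  | n + 1, x, y, h => by
    obtain ⟨_, z, hz, h⟩ := h
    obtain ⟨p, hp⟩ := h.to_walk_univ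
    exact ⟨Walk.cons hz p, by simp [hp]⟩

/-- Working form of being distance-hereditary. -/
def DHW {V : Type u} (G : SimpleGraph V) : Prop :=
  ∀ (s : Set V) (n m : ℕ) (x y : V), Wk G s n x y → Wk G Set.univ m x y →
    ∃ k ≤ m, Wk G s k x y

theorem DHW.dh (h : DHW G) : DistanceHereditary G := by
  intro s hs u v
  apply le_antisymm
  · by_cases htop : G.edist (u : V) (v : V) = ⊤
    · rw [htop]; exact le_top
    obtain ⟨p, hp⟩ := exists_walk_of_edist_ne_top htop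
    obtain ⟨q⟩ := hs.preconnected u v
    obtain ⟨k, hk, hw⟩ := h s q.length p.length u v (Wk.of_walk q) (Wk.of_walk_univ p)
    obtain ⟨r, hr⟩ := hw.to_walk u.2 v.2
    calc (G.induce s).edist u v ≤ (r.length : ℕ∞) := edist_le r
      _ ≤ (p.length : ℕ∞) := by rw [hr]; exact_mod_cast hk
      _ = _ := hp
  · obtain ⟨p, hp⟩ := hs.exists_walk_length_eq_edist u v
    rw [← hp]
    obtain ⟨r, hr⟩ := ((Wk.of_walk p).mono (Set.subset_univ s)).to_walk_univ
    rw [← hr]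
    exact edist_le r

theorem DistanceHereditary.dhw (h : DistanceHereditary G) : DHW G := by
  intro s n m x y h1 h2
  let s' : Set V := {z | ∃ k, Wk G s k x z}
  have hmem : ∀ z ∈ s', z ∈ s := fun z hz => hz.choose_spec.right_mem
  have key : ∀ (n : ℕ) (z w : V), z ∈ s' → Wk G s n z w → Wk G s' n z w := by
    intro n
    induction n with
    | zero => intro z w hz hw; exact ⟨hw.1, hz⟩
    | succ n ih =>
      intro z w hz hw
      obtain ⟨hzs, a, ha, hw⟩ := hw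
      refine ⟨hz, a, ha, ih a w ?_ hw⟩
      obtain ⟨k, hk⟩ := hz
      exact ⟨k + 1, hk.trans (Wk.single hzs hw.left_mem ha)⟩
  have hx : x ∈ s' := ⟨0, Wk.refl h1.left_mem⟩
  have hy : y ∈ s' := ⟨n, h1⟩
  have hconn : (G.induce s').Connected := by
    have : Nonempty s' := ⟨⟨x, hx⟩⟩
    rw [connected_iff]
    refine ⟨?_, this⟩
    have hxz : ∀ z : s', (G.induce s').Reachable ⟨x, hx⟩ z := by
      intro z
      obtain ⟨k, hk⟩ := z.2
      obtain ⟨p, _⟩ := (key k x z hx hk).to_walk hx z.2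
      exact ⟨p⟩
    intro a b
    exact (hxz a).symm.trans (hxz b)
  have h3 := h s' hconn ⟨x, hx⟩ ⟨y, hy⟩
  obtain ⟨p, hp⟩ := hconn.exists_walk_length_eq_edist ⟨x, hx⟩ ⟨y, hy⟩
  obtain ⟨q, hq⟩ := h2.to_walk_univ
  refine ⟨p.length, ?_, (Wk.of_walk p).mono (fun z hz => hmem z hz)⟩
  have h4 : (p.length : ℕ∞) ≤ (m : ℕ∞) := by
    rw [hp, h3, ← hq]
    exact edist_le q
  exact_mod_cast h4

end Pool.Agent.V11293.DH
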