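import Pool.Agent.V11293.DH.Basic

namespace Pool.Agent.V11293.DH

open SimpleGraph

universe u

variable {V : Type u}

/-- no induced path on four vertices inside `S` -/
def P4F (H : SimpleGraph V) (S : Finset V) : Prop :=
  ∀ a ∈ S, ∀ b ∈ S, ∀ c ∈ S, ∀ d ∈ S, H.Adj a b → H.Adj b c → H.Adj c d →
    ¬ H.Adj a c → ¬ H.Adj b d → ¬ H.Adj a d → False

theorem P4F.mono {H : SimpleGraph V} {S T : Finset V} (h : P4F H T) (hST : S ⊆ T) : P4F H S :=
  fun a ha b hb c hc d hd => h a (hST ha) b (hST hb) c (hST hc) d (hST hd)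

theorem P4F.compl {H : SimpleGraph V} {S : Finset V} (h : P4F H S) : P4F Hᶜ S := by
  intro a ha b hb c hc d hd h1 h2 h3 h4 h5 h6
  simp only [compl_adj, not_and, not_not] at h1 h2 h3 h4 h5 h6
  have hac : a ≠ c := by
    rintro rfl
    exact h3.2 (h6 h3.1)
  have hbd : b ≠ d := by
    rintro rfl
    exact h1.2 (h6 h1.1)
  have had : a ≠ d := by
    rintro rfl
    exact h3.2 (h4 (Ne.symm h3.1)).symm
  exact h b hb d hd a ha c hc (h5 hbd) (h6 had).symm (h4 hac) (fun h' => h1.2 h'.symm)
    (fun h' => h3.2 h'.symm) h2.2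

/-- `S` splits into two nonempty parts with all or no edges between them. -/
def Spl (H : SimpleGraph V) (S : Finset V) : Prop :=
  ∃ K : Finset V, K ⊆ S ∧ K.Nonempty ∧ (∃ y ∈ S, y ∉ K) ∧
    ((∀ x ∈ K, ∀ y ∈ S, y ∉ K → H.Adj x y) ∨ (∀ x ∈ K, ∀ y ∈ S, y ∉ K → ¬ H.Adj x y))

theorem spl_compl {H : SimpleGraph V} {S : Finset V} (h : Spl Hᶜ S) : Spl H S := by
  obtain ⟨K, hK, hne, hy, h | h⟩ := h
  · refine ⟨K, hK, hne, hy, Or.inr fun x hx y hy hyK => ?_⟩
    have := h x hx y hy hyK
    rw [compl_adj] at this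
    exact this.2
  · refine ⟨K, hK, hne, hy, Or.inl fun x hx y hy hyK => ?_⟩
    have := h x hx y hy hyK
    rw [compl_adj] at this
    have hxy : x ≠ y := by rintro rfl; exact hyK hx
    by_contra h'
    exact this ⟨hxy, h'⟩

open Classical in
theorem spl_main {H : SimpleGraph V} {S : Finset V} {v : V} (hv : v ∉ S)
    (hP : P4F H (insert v S)) {K K' : Finset V} (hU : ∀ x, x ∈ S ↔ x ∈ K ∨ x ∈ K')
    (hK : K.Nonempty) (hK' : K'.Nonempty) (hno : ∀ x ∈ K, ∀ y ∈ K', ¬ H.Adj x y ∧ x ≠ y) :
    Spl H (insert v S) := by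
  have hvK : v ∉ K := fun h => hv ((hU v).mpr (Or.inl h))
  have hvK' : v ∉ K' := fun h => hv ((hU v).mpr (Or.inr h))
  by_cases h1 : ∀ x ∈ K, ¬ H.Adj v x
  · refine ⟨K, fun x hx => Finset.mem_insert_of_mem ((hU x).mpr (Or.inl hx)), hK,
      ⟨v, Finset.mem_insert_self _ _, hvK⟩, Or.inr fun x hx y hy hyK => ?_⟩
    rcases Finset.mem_insert.mp hy with h | h
    · subst h; exact fun h' => h1 x hx h'.symm
    · rcases (hU y).mp h with h | h
      · exact absurd h hyK
      · exact (hno x hx y h).1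
  by_cases h2 : ∀ x ∈ K', ¬ H.Adj v x
  · refine ⟨K', fun x hx => Finset.mem_insert_of_mem ((hU x).mpr (Or.inr hx)), hK',
      ⟨v, Finset.mem_insert_self _ _, hvK'⟩, Or.inr fun x hx y hy hyK => ?_⟩
    rcases Finset.mem_insert.mp hy with h | h
    · subst h; exact fun h' => h2 x hx h'.symm
    · rcases (hU y).mp h with h | h
      · exact fun h' => (hno y h x hx).1 h'.symm
      · exact absurd h hyK
  by_cases h3 : ∀ x ∈ S, H.Adj v x
  · refine ⟨{v}, by simp, by simp, ?_, Or.inl fun x hx y hy hyK => ?_⟩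
    · obtain ⟨x, hx⟩ := hK
      have hxS := (hU x).mpr (Or.inl hx)
      refine ⟨x, Finset.mem_insert_of_mem hxS, ?_⟩
      rw [Finset.mem_singleton]
      rintro rfl
      exact hvK hx
    · rw [Finset.mem_singleton] at hx hyK
      subst hx
      rcases Finset.mem_insert.mp hy with h | h
      · exact absurd h hyK
      · exact h3 y h
  push Not at h1 h2 h3
  obtain ⟨y, hyS, hvy⟩ := h3
  -- wlog formulation
  have key : ∀ (A B : Finset V), (∀ x, x ∈ S ↔ x ∈ A ∨ x ∈ B) →
      (∀ x ∈ A, ∀ y ∈ B, ¬ H.Adj x y ∧ x ≠ y) → y ∈ A → (∃ z ∈ B, H.Adj v z) →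
      Spl H (insert v S) := by
    intro A B hU hno hyA hz
    obtain ⟨z, hzB, hvz⟩ := hz
    let R : V → V → Prop := fun a b => H.Adj a b ∧ b ∈ S
    let C : Finset V := S.filter (fun x => Relation.ReflTransGen R y x)
    have hCA : ∀ x, Relation.ReflTransGen R y x → x ∈ A := by
      intro x hx
      induction hx with
      | refl => exact hyA
      | tail _ hbc ih =>
        rcases (hU _).mp hbc.2 with h | h
        · exact h
        · exact absurd hbc.1 (hno _ ih _ h).1
    have hyC : y ∈ C := Finset.mem_filter.mpr ⟨hyS, Relation.ReflTransGen.refl⟩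
    by_cases h4 : ∀ x ∈ C, ¬ H.Adj v x
    · refine ⟨C, fun x hx => Finset.mem_insert_of_mem (Finset.mem_filter.mp hx).1, ⟨y, hyC⟩,
        ⟨v, Finset.mem_insert_self _ _, fun h => hv (Finset.mem_filter.mp h).1⟩,
        Or.inr fun x hx w hw hwC => ?_⟩
      rcases Finset.mem_insert.mp hw with h | h
      · subst h; exact fun h' => h4 x hx h'.symm
      · intro hadj
        apply hwC
        exact Finset.mem_filter.mpr ⟨h, (Finset.mem_filter.mp hx).2.tail ⟨hadj, h⟩⟩
    · exfalso
      push Not at h4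
      obtain ⟨x, hxC, hvx⟩ := h4
      have hex : ∀ x, Relation.ReflTransGen R y x → H.Adj v x →
          ∃ p q, p ∈ A ∧ q ∈ A ∧ H.Adj p q ∧ ¬ H.Adj v p ∧ H.Adj v q := by
        intro x hx
        induction hx with
        | refl => intro h; exact absurd h hvy
        | tail hab hbc ih =>
          rename_i b c'
          intro hvc
          by_cases hvb : H.Adj v b
          · exact ih hvb
          · exact ⟨b, c', hCA b hab, hCA c' (hab.tail hbc), hbc.1, hvb, hvc⟩
      obtain ⟨p, q, hpA, hqA, hpq, hvp, hvq⟩ := hex x (Finset.mem_filter.mp hxC).2 hvx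
      have m1 : ∀ x ∈ A, x ∈ insert v S := fun x hx => Finset.mem_insert_of_mem ((hU x).mpr (Or.inl hx))
      have m2 : ∀ x ∈ B, x ∈ insert v S := fun x hx => Finset.mem_insert_of_mem ((hU x).mpr (Or.inr hx))
      exact hP p (m1 p hpA) q (m1 q hqA) v (Finset.mem_insert_self _ _) z (m2 z hzB)
        hpq hvq.symm hvz (fun h => hvp h.symm) (hno q hqA z hzB).1 (hno p hpA z hzB).1
  rcases (hU y).mp hyS with h | h
  · exact key K K' hU hno h h2
  · exact key K' K (fun x => by rw [hU x, or_comm])
      (fun x hx y hy => ⟨fun h' => (hno y hy x hx).1 h'.symm, fun h' => (hno y hy x hx).2 h'.symm⟩)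
      h h1

theorem seinsche : ∀ (S : Finset V), 2 ≤ S.card → ∀ H : SimpleGraph V, P4F H S → Spl H S := by
  classical
  intro S
  induction S using Finset.induction_on with
  | empty => intro h; simp at h
  | insert v S hv ih =>
    intro hcard H hP
    rw [Finset.card_insert_of_notMem hv] at hcard
    have hmain : ∀ H : SimpleGraph V, P4F H (insert v S) →
        (∃ K : Finset V, K ⊆ S ∧ K.Nonempty ∧ (∃ y ∈ S, y ∉ K) ∧
          (∀ x ∈ K, ∀ y ∈ S, y ∉ K → ¬ H.Adj x y)) → Spl H (insert v S) := by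
      intro H hP hK
      obtain ⟨K, hKS, hKne, ⟨y, hyS, hyK⟩, hno⟩ := hK
      refine spl_main (K := K) (K' := S \ K) hv hP ?_ hKne
        ⟨y, Finset.mem_sdiff.mpr ⟨hyS, hyK⟩⟩ ?_
      · intro x
        rw [Finset.mem_sdiff]
        constructor
        · intro hx
          by_cases hxK : x ∈ K
          · exact Or.inl hxK
          · exact Or.inr ⟨hx, hxK⟩
        · rintro (hx | hx)
          · exact hKS hx
          · exact hx.1
      · intro x hx y hy
        rw [Finset.mem_sdiff] at hy
        exact ⟨hno x hx y hy.1 hy.2, fun h => hy.2 (h ▸ hx)⟩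
    by_cases hc : 2 ≤ S.card
    · obtain ⟨K, hKS, hKne, hy, h | h⟩ := ih hc H (hP.mono (Finset.subset_insert _ _))
      · apply spl_compl
        apply hmain Hᶜ hP.compl
        refine ⟨K, hKS, hKne, hy, fun x hx y hy hyK => ?_⟩
        rw [compl_adj]
        rintro ⟨_, h'⟩
        exact h' (h x hx y hy hyK)
      · exact hmain H hP ⟨K, hKS, hKne, hy, h⟩
    · have hS1 : S.card = 1 := by omega
      obtain ⟨w, hw⟩ := Finset.card_eq_one.mp hS1
      subst hw
      have hvw : v ≠ w := by
        rintro rfl; simp at hv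
      refine ⟨{v}, by simp, by simp, ⟨w, by simp, by simpa using hvw.symm⟩, ?_⟩
      by_cases hadj : H.Adj v w
      · left
        intro x hx y hy hyK
        simp only [Finset.mem_singleton] at hx hyK
        simp only [Finset.mem_insert, Finset.mem_singleton] at hy
        subst hx
        rcases hy with h | h
        · exact absurd h hyK
        · rw [h]; exact hadj
      · right
        intro x hx y hy hyK
        simp only [Finset.mem_singleton] at hx hyK
        simp only [Finset.mem_insert, Finset.mem_singleton] at hy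
        subst hx
        rcases hy with h | h
        · exact absurd h hyK
        · rw [h]; exact hadj

theorem twins_of_P4F (H : SimpleGraph V) : ∀ (n : ℕ) (S : Finset V), S.card = n → 2 ≤ n → P4F H S →
    ∃ u ∈ S, ∃ v ∈ S, u ≠ v ∧ ∀ z ∈ S, z ≠ u → z ≠ v → (H.Adj u z ↔ H.Adj v z) := by
  classical
  intro n
  induction n using Nat.strong_induction_on with
  | _ n ih =>
    intro S hS hn hP
    obtain ⟨K, hKS, hKne, ⟨y, hyS, hyK⟩, hsp⟩ := seinsche S (by omega) H hP
    -- generic finishing step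
    have fin : ∀ M : Finset V, M ⊆ S → 2 ≤ M.card → M.card < n →
        (∀ z ∈ S, z ∉ M → ∀ a ∈ M, ∀ b ∈ M, (H.Adj a z ↔ H.Adj b z)) →
        ∃ u ∈ S, ∃ v ∈ S, u ≠ v ∧ ∀ z ∈ S, z ≠ u → z ≠ v → (H.Adj u z ↔ H.Adj v z) := by
      intro M hM h2 hlt hmod
      obtain ⟨u, hu, v, hv, huv, htw⟩ := ih M.card hlt M rfl h2 (hP.mono hM)
      refine ⟨u, hM hu, v, hM hv, huv, fun z hz hzu hzv => ?_⟩
      by_cases hzM : z ∈ M
      · exact htw z hzM hzu hzv
      · exact hmod z hz hzM u hu v hv
    by_cases h3 : n = 2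
    · subst h3
      obtain ⟨a, b, hab, hS2⟩ := Finset.card_eq_two.mp hS
      refine ⟨a, by rw [hS2]; simp, b, by rw [hS2]; simp, hab, fun z hz h1 h2 => ?_⟩
      rw [hS2] at hz
      simp only [Finset.mem_insert, Finset.mem_singleton] at hz
      rcases hz with h | h
      · exact absurd h h1
      · exact absurd h h2
    · have hKlt : K.card < S.card := by
        apply Finset.card_lt_card
        exact ⟨hKS, fun h => hyK (h hyS)⟩
      have hcard : (S \ K).card + K.card = S.card := Finset.card_sdiff_add_card_eq_card hKS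
      have hKpos : 0 < K.card := Finset.card_pos.mpr hKne
      by_cases hK2 : 2 ≤ K.card
      · refine fin K hKS hK2 (by omega) ?_
        intro z hz hzK a ha b hb
        rcases hsp with h | h
        · exact iff_of_true (h a ha z hz hzK) (h b hb z hz hzK)
        · exact iff_of_false (h a ha z hz hzK) (h b hb z hz hzK)
      · refine fin (S \ K) Finset.sdiff_subset (by omega) (by omega) ?_
        intro z hz hzK a ha b hb
        rw [Finset.mem_sdiff] at hzK ha hb
        have hzK' : z ∈ K := by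
          by_contra h'
          exact hzK ⟨hz, h'⟩
        rcases hsp with h | h
        · exact iff_of_true (h z hzK' a ha.1 ha.2).symm (h z hzK' b hb.1 hb.2).symm
        · exact iff_of_false (fun h' => h z hzK' a ha.1 ha.2 h'.symm)
            (fun h' => h z hzK' b hb.1 hb.2 h'.symm)

end Pool.Agent.V11293.DH
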