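import Pool.Agent.V11293.DH.Basic

namespace Pool.Agent.V11293.DH

open SimpleGraph

universe u

section
variable {L : Type u} [LinearOrder L] (c : L → Fin 3)

/-- `q` is the first coordinate where `A` and `B` differ. -/
def FD (A B : Finset L) (q : L) : Prop := ¬ (q ∈ A ↔ q ∈ B) ∧ ∀ t < q, (t ∈ A ↔ t ∈ B)

/-- `A` has no element of colour `2` beyond `q`. -/
def NB (A : Finset L) (q : L) : Prop := ∀ t ∈ A, q < t → c t ≠ 2

/-- The coordinate graph on finite subsets of a coloured linear order. -/
def treeG : SimpleGraph (Finset L) where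
  Adj A B := ∃ q, FD A B q ∧ c q ≠ 1 ∧ NB c A q ∧ NB c B q
  symm := ⟨by
    rintro A B ⟨q, h1, h2, h3, h4⟩
    exact ⟨q, ⟨fun h => h1.1 h.symm, fun t ht => (h1.2 t ht).symm⟩, h2, h4, h3⟩⟩
  loopless := ⟨by
    rintro A ⟨q, h1, _⟩
    exact h1.1 Iff.rfl⟩

theorem treeG_adj {A B : Finset L} :
    (treeG c).Adj A B ↔ ∃ q, FD A B q ∧ c q ≠ 1 ∧ NB c A q ∧ NB c B q := Iff.rfl

variable {c}

theorem FD.symm {A B : Finset L} {q : L} (h : FD A B q) : FD B A q :=
  ⟨fun h' => h.1 h'.symm, fun t ht => (h.2 t ht).symm⟩

theorem FD.ne {A B : Finset L} {q : L} (h : FD A B q) : A ≠ B := by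
  rintro rfl; exact h.1 Iff.rfl

theorem FD.unique {A B : Finset L} {p q : L} (h : FD A B p) (h' : FD A B q) : p = q := by
  rcases lt_trichotomy p q with hlt | heq | hlt
  · exact absurd (h'.2 p hlt) h.1
  · exact heq
  · exact absurd (h.2 q hlt) h'.1

theorem FD.exists {A B : Finset L} (h : A ≠ B) : ∃ q, FD A B q := by
  have hne : (symmDiff A B).Nonempty := by
    rw [Finset.nonempty_iff_ne_empty]
    intro h'
    exact h (symmDiff_eq_bot.mp h')
  refine ⟨(symmDiff A B).min' hne, ?_, ?_⟩
  · have := (symmDiff A B).min'_mem hne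
    rw [Finset.mem_symmDiff] at this
    tauto
  · intro t ht
    by_contra h'
    have : t ∈ symmDiff A B := by
      rw [Finset.mem_symmDiff]; tauto
    exact absurd ((symmDiff A B).min'_le t this) (not_le.mpr ht)

theorem FD.trans_lt {A B C : Finset L} {p q : L} (h : FD A B p) (h' : FD B C q) (hpq : p < q) :
    FD A C p := by
  refine ⟨?_, ?_⟩
  · have := h'.2 p hpq
    have := h.1
    tauto
  · intro t ht
    have := h'.2 t (ht.trans hpq)
    have := h.2 t ht
    tauto

theorem FD.trans_gt {A B C : Finset L} {p q : L} (h : FD A B p) (h' : FD B C q) (hpq : q < p) :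
    FD A C q := (h'.symm.trans_lt h.symm hpq).symm

theorem FD.trans_eq {A B C : Finset L} {p q : L} (h : FD A B p) (h' : FD B C p)
    (hq : FD A C q) : p < q := by
  rcases lt_trichotomy p q with hlt | heq | hlt
  · exact hlt
  · subst heq
    have := h.1; have := h'.1; have := hq.1
    tauto
  · have := h.2 q hlt; have := h'.2 q hlt; have := hq.1
    tauto

variable (c) in
/-- number of elements of colour `2` beyond `q` -/
def nb (A : Finset L) (q : L) : ℕ := (A.filter (fun t => q < t ∧ c t = 2)).card

theorem nb_eq_zero {A : Finset L} {q : L} (h : NB c A q) : nb c A q = 0 := by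
  unfold nb
  rw [Finset.card_eq_zero, Finset.filter_eq_empty_iff]
  intro t ht h'
  exact h t ht h'.1 h'.2

theorem nb_zero_iff {A : Finset L} {q : L} : nb c A q = 0 ↔ NB c A q := by
  refine ⟨fun h => ?_, nb_eq_zero⟩
  unfold nb at h
  rw [Finset.card_eq_zero, Finset.filter_eq_empty_iff] at h
  intro t ht h1 h2
  exact h ht ⟨h1, h2⟩

theorem nb_le_succ {A B : Finset L} {p r q : L}
    (h : ∀ t ∈ A, p < t → c t = 2 → t ≠ q → t ∈ B ∧ r < t) : nb c A p ≤ nb c B r + 1 := by
  unfold nb
  calc _ ≤ (insert q (B.filter (fun t => r < t ∧ c t = 2))).card := by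
        apply Finset.card_le_card
        intro t ht
        rw [Finset.mem_filter] at ht
        rw [Finset.mem_insert, Finset.mem_filter]
        by_cases htq : t = q
        · exact Or.inl htq
        · obtain ⟨h1, h2⟩ := h t ht.1 ht.2.1 ht.2.2 htq
          exact Or.inr ⟨h1, h2, ht.2.2⟩
    _ ≤ _ := Finset.card_insert_le _ _

theorem nb_anti {A : Finset L} {p q : L} (h : p ≤ q) : nb c A q ≤ nb c A p := by
  unfold nb
  apply Finset.card_le_card
  intro t ht
  rw [Finset.mem_filter] at ht ⊢
  exact ⟨ht.1, lt_of_le_of_lt h ht.2.1, ht.2.2⟩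

variable (c) in
/-- the distance formula -/
def Dq (A B : Finset L) (q : L) : ℕ := 1 + (if c q = 1 then 1 else 0) + nb c A q + nb c B q

theorem lower : ∀ (m : ℕ) (A B : Finset L) (q : L), Wk (treeG c) Set.univ m A B → FD A B q →
    Dq c A B q ≤ m := by
  intro m
  induction m with
  | zero =>
    intro A B q h hq
    exact absurd h.1 hq.ne
  | succ m ih =>
    intro A B q h hq
    obtain ⟨_, z, hz, h⟩ := h
    obtain ⟨q0, h0, hc0, hA, hzz⟩ := hz
    by_cases hzB : z = B
    · subst hzB
      have := hq.unique h0
      subst this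
      unfold Dq
      rw [nb_eq_zero hA, nb_eq_zero hzz, if_neg hc0]
      omega
    · obtain ⟨p, hp⟩ := FD.exists hzB
      have h1 := ih z B p h hp
      rcases lt_trichotomy q0 p with hlt | heq | hlt
      · have h2 := h0.trans_lt hp hlt
        have := hq.unique h2
        subst this
        have h3 : nb c B q ≤ nb c B p + 1 := by
          apply nb_le_succ (q := p)
          intro t ht hqt hct htp
          refine ⟨ht, ?_⟩
          by_contra hlt'
          have htp' : t < p := lt_of_le_of_ne (not_lt.mp hlt') htp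
          have := (hp.2 t htp').mpr ht
          exact hzz t this hqt hct
        unfold Dq at h1 ⊢
        rw [nb_eq_zero hA, if_neg hc0]
        omega
      · subst heq
        have h2 := h0.trans_eq hp hq
        have h3 : nb c B q ≤ nb c B q0 := nb_anti h2.le
        have h4 : nb c A q ≤ nb c A q0 := nb_anti h2.le
        rw [nb_eq_zero hA] at h4
        unfold Dq at h1 ⊢
        split_ifs at h1 ⊢ <;> omega
      · have h2 := h0.trans_gt hp hlt
        have := hq.unique h2
        subst this
        have h3 : nb c A q ≤ nb c z q + 1 := by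
          apply nb_le_succ (q := q0)
          intro t ht hqt hct htp
          refine ⟨?_, hqt⟩
          rcases lt_or_gt_of_ne htp with h5 | h5
          · exact (h0.2 t h5).mp ht
          · exact absurd hct (hA t ht h5)
        unfold Dq at h1 ⊢
        omega

theorem exit {V : Type u} {G : SimpleGraph V} {s : Set V} (P : V → Prop) : ∀ (n : ℕ) (x y : V),
    Wk G s n x y → P x → ¬ P y →
    ∃ z w, P z ∧ ¬ P w ∧ G.Adj z w ∧ z ∈ s ∧ w ∈ s ∧ ∃ k, Wk G s k w y := by
  intro n
  induction n with
  | zero => intro x y h hx hy; exact absurd (h.1 ▸ hx) hy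
  | succ n ih =>
    intro x y h hx hy
    obtain ⟨hxs, a, ha, h⟩ := h
    by_cases hPa : P a
    · exact ih a y h hPa hy
    · exact ⟨x, a, hx, hPa, ha, hxs, h.left_mem, n, h⟩

theorem upper (s : Set (Finset L)) (q : L) : ∀ (N n : ℕ) (A B : Finset L),
    Wk (treeG c) s n A B → FD A B q → nb c A q + nb c B q = N →
    ∃ k ≤ 1 + (if c q = 1 then 1 else 0) + N, Wk (treeG c) s k A B := by
  intro N
  induction N with
  | zero =>
    intro n A B h hq hN
    have hA : NB c A q := nb_zero_iff.mp (by omega)
    have hB : NB c B q := nb_zero_iff.mp (by omega)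
    by_cases hc : c q = 1
    · -- common neighbour
      rw [if_pos hc]
      have : ∃ w ∈ s, (treeG c).Adj A w ∧ (treeG c).Adj B w := by
        -- exit from the set agreeing with A below q, with the same value at q
        obtain ⟨z, w, hz, hw, hadj, hzs, hws, _⟩ :=
          exit (fun C => ∀ t ≤ q, (t ∈ C ↔ t ∈ A)) n A B h (fun t _ => Iff.rfl)
            (fun h' => hq.1 ((h' q le_rfl).symm))
        obtain ⟨t, ht, hct, hzt, hwt⟩ := hadj
        have htq : t < q := by
          rcases lt_trichotomy t q with h1 | h1 | h1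
          · exact h1
          · subst h1; exact absurd hc hct
          · exfalso
            apply hw
            intro r hr
            exact (ht.2 r (lt_of_le_of_lt hr h1)).symm.trans (hz r hr)
        have hAz : ∀ r ≤ t, (r ∈ A ↔ r ∈ z) := fun r hr => (hz r (hr.trans htq.le)).symm
        have hAw : FD A w t := by
          refine ⟨?_, ?_⟩
          · have := hAz t le_rfl; have := ht.1; tauto
          · intro r hr; exact (hAz r hr.le).trans (ht.2 r hr)
        have hNA : NB c A t := by
          intro r hr htr hcr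
          rcases lt_trichotomy r q with h1 | h1 | h1
          · exact hzt r ((hz r h1.le).mpr hr) htr hcr
          · subst h1; rw [hc] at hcr; exact absurd hcr (by decide)
          · exact hA r hr h1 hcr
        have hBw : FD B w t := by
          refine ⟨?_, ?_⟩
          · have := hq.2 t htq; have := hAw.1; tauto
          · intro r hr; exact (hq.2 r (hr.trans htq)).symm.trans (hAw.2 r hr)
        have hNB : NB c B t := by
          intro r hr htr hcr
          rcases lt_trichotomy r q with h1 | h1 | h1
          · exact hNA r ((hq.2 r h1).mpr hr) htr hcr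
          · subst h1; rw [hc] at hcr; exact absurd hcr (by decide)
          · exact hB r hr h1 hcr
        exact ⟨w, hws, ⟨t, hAw, hct, hNA, hwt⟩, ⟨t, hBw, hct, hNB, hwt⟩⟩
      obtain ⟨w, hws, h1, h2⟩ := this
      exact ⟨2, by omega, Wk.cons h.left_mem h1 (Wk.single hws h.right_mem h2.symm)⟩
    · rw [if_neg hc]
      exact ⟨1, by omega, Wk.single h.left_mem h.right_mem ⟨q, hq, hc, hA, hB⟩⟩
  | succ N ih =>
    have main : ∀ (n : ℕ) (A B : Finset L), Wk (treeG c) s n A B → FD A B q →
        nb c A q + nb c B q = N + 1 → 0 < nb c A q →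
        ∃ k ≤ 1 + (if c q = 1 then 1 else 0) + (N + 1), Wk (treeG c) s k A B := by
      intro n A B h hq hN hpos
      have hne : (A.filter (fun t => q < t ∧ c t = 2)).Nonempty := Finset.card_pos.mp hpos
      obtain ⟨l, hl, hmax⟩ : ∃ l ∈ A.filter (fun t => q < t ∧ c t = 2),
          ∀ t ∈ A.filter (fun t => q < t ∧ c t = 2), t ≤ l :=
        ⟨_, Finset.max'_mem _ hne, fun t ht => Finset.le_max' _ t ht⟩
      rw [Finset.mem_filter] at hl
      obtain ⟨hlA, hql, hcl⟩ := hl
      obtain ⟨z, w, hz, hw, hadj, hzs, hws, k', hk'⟩ :=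
        exit (fun C => ∀ t ≤ l, (t ∈ C ↔ t ∈ A)) n A B h (fun t _ => Iff.rfl)
          (fun h' => hq.1 ((h' q hql.le).symm))
      obtain ⟨t, ht, hct, hzt, hwt⟩ := hadj
      have htl : t = l := by
        rcases lt_trichotomy t l with h1 | h1 | h1
        · exact absurd hcl (hzt l ((hz l le_rfl).mpr hlA) h1)
        · exact h1
        · exfalso
          apply hw
          intro r hr
          exact (ht.2 r (lt_of_le_of_lt hr h1)).symm.trans (hz r hr)
      subst htl
      have hAw : FD A w t := by
        refine ⟨?_, ?_⟩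
        · have := hz t le_rfl; have := ht.1; tauto
        · intro r hr; exact (hz r hr.le).symm.trans (ht.2 r hr)
      have hNA : NB c A t := by
        intro r hr htr hcr
        exact absurd (hmax r (Finset.mem_filter.mpr ⟨hr, hql.trans htr, hcr⟩)) (not_le.mpr htr)
      have hadj' : (treeG c).Adj A w := ⟨t, hAw, hct, hNA, hwt⟩
      have hwB : FD w B q := hAw.symm.trans_gt hq hql
      have hcount : nb c w q + 1 = nb c A q := by
        unfold nb
        have : A.filter (fun r => q < r ∧ c r = 2) =
            insert t (w.filter (fun r => q < r ∧ c r = 2)) := by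
          ext r
          rw [Finset.mem_insert, Finset.mem_filter, Finset.mem_filter]
          constructor
          · rintro ⟨h1, h2, h3⟩
            rcases lt_trichotomy r t with h4 | h4 | h4
            · exact Or.inr ⟨(hAw.2 r h4).mp h1, h2, h3⟩
            · exact Or.inl h4
            · exact absurd h3 (hNA r h1 h4)
          · rintro (h1 | ⟨h1, h2, h3⟩)
            · subst h1; exact ⟨hlA, hql, hcl⟩
            · rcases lt_trichotomy r t with h4 | h4 | h4
              · exact ⟨(hAw.2 r h4).mpr h1, h2, h3⟩
              · subst h4; exact ⟨hlA, hql, hcl⟩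
              · exact absurd h3 (hwt r h1 h4)
        rw [this, Finset.card_insert_of_notMem]
        rw [Finset.mem_filter]
        rintro ⟨h1, _⟩
        have := hAw.1
        tauto
      obtain ⟨k, hk, hwk⟩ := ih k' w B hk' hwB (by omega)
      exact ⟨k + 1, by omega, Wk.cons h.left_mem hadj' hwk⟩
    intro n A B h hq hN
    by_cases hpos : 0 < nb c A q
    · exact main n A B h hq hN hpos
    · obtain ⟨k, hk, hwk⟩ := main n B A h.symm hq.symm (by omega) (by omega)
      exact ⟨k, hk, hwk.symm⟩

theorem treeG_dhw : DHW (treeG c) := by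
  intro s n m A B h1 h2
  by_cases hAB : A = B
  · subst hAB
    exact ⟨0, Nat.zero_le _, Wk.refl h1.left_mem⟩
  · obtain ⟨q, hq⟩ := FD.exists hAB
    have h3 := lower m A B q h2 hq
    obtain ⟨k, hk, hw⟩ := upper s q _ n A B h1 hq rfl
    refine ⟨k, ?_, hw⟩
    unfold Dq at h3
    omega

end

end Pool.Agent.V11293.DH
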