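import Pool.Agent.V11293.DH.Prune
import Pool.Agent.V11293.DH.Tree

namespace Pool.Agent.V11293.DH

open SimpleGraph

universe u w

section ins
variable {L : Type w} [LinearOrder L] {c : L → Fin 3}

theorem fd_insert {A D : Finset L} {p q : L} (hp : FD D A p) (hpq : p < q) :
    FD D (insert q A) p := by
  refine ⟨?_, ?_⟩
  · have := hp.1
    rw [Finset.mem_insert]
    have h : p ≠ q := hpq.ne
    tauto
  · intro t ht
    rw [Finset.mem_insert, hp.2 t ht]
    have h : t ≠ q := (ht.trans hpq).ne
    tauto

theorem fd_lt {A D : Finset L} {p q : L} (hA : ∀ t ∈ A, t < q) (hD : ∀ t ∈ D, t < q)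
    (hp : FD D A p) : p < q := by
  by_cases h : p ∈ D
  · exact hD p h
  · by_cases h' : p ∈ A
    · exact hA p h'
    · exact absurd (iff_of_false h h') hp.1

theorem adj_insert_ne {A D : Finset L} {q : L} (hA : ∀ t ∈ A, t < q) (hD : ∀ t ∈ D, t < q)
    (hne : D ≠ A) : (treeG c).Adj D (insert q A) ↔ c q ≠ 2 ∧ (treeG c).Adj D A := by
  obtain ⟨p, hp⟩ := FD.exists hne
  have hpq := fd_lt hA hD hp
  have hp' := fd_insert hp hpq
  constructor
  · rintro ⟨p1, h1, h2, h3, h4⟩
    have := h1.unique hp'
    subst this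
    refine ⟨h4 q (Finset.mem_insert_self _ _) hpq, p1, hp, h2, h3, ?_⟩
    intro t ht
    exact h4 t (Finset.mem_insert_of_mem ht)
  · rintro ⟨h0, p1, h1, h2, h3, h4⟩
    have := h1.unique hp
    subst this
    refine ⟨p1, hp', h2, h3, ?_⟩
    intro t ht htp
    rcases Finset.mem_insert.mp ht with rfl | ht
    · exact h0
    · exact h4 t ht htp

theorem adj_insert_self {A : Finset L} {q : L} (hA : ∀ t ∈ A, t < q) :
    (treeG c).Adj A (insert q A) ↔ c q ≠ 1 := by
  have hqA : q ∉ A := fun h => lt_irrefl _ (hA q h)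
  have hfd : FD A (insert q A) q := by
    refine ⟨?_, ?_⟩
    · intro h
      exact hqA (h.mpr (Finset.mem_insert_self _ _))
    · intro t ht
      rw [Finset.mem_insert]
      have := ht.ne
      tauto
  constructor
  · rintro ⟨p, h1, h2, _, _⟩
    rwa [← h1.unique hfd]
  · intro h
    refine ⟨q, hfd, h, ?_, ?_⟩
    · intro t ht htq
      exact absurd (hA t ht) (not_lt.mpr htq.le)
    · intro t ht htq
      rcases Finset.mem_insert.mp ht with rfl | ht
      · exact absurd htq (lt_irrefl _)
      · exact absurd (hA t ht) (not_lt.mpr htq.le)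

end ins

section
variable {V : Type u} {G : SimpleGraph V} {r : V} {C : Set V} {d : V → ℕ}
variable {L : Type w} [LinearOrder L] {c : L → Fin 3}

/-- the extension step -/
theorem ext_step (hc : ∀ (i : Fin 3) (F : Finset L), ∃ q, c q = i ∧ ∀ t ∈ F, t < q)
    (X : Finset V) (a b : V) (haX : a ∈ X) (hab : a ≠ b)
    (φ : V → Finset L) (hinj : ∀ x ∈ X, ∀ y ∈ X, x ≠ b → y ≠ b → φ x = φ y → x = y)
    (hadj : ∀ x ∈ X, ∀ y ∈ X, x ≠ b → y ≠ b → (G.Adj x y ↔ (treeG c).Adj (φ x) (φ y)))
    (i : Fin 3) (h1 : G.Adj a b ↔ i ≠ 1)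
    (h2 : ∀ x ∈ X, x ≠ a → x ≠ b → (G.Adj x b ↔ i ≠ 2 ∧ G.Adj x a)) :
    ∃ (ψ : V → Finset L) (q : L), c q = i ∧ q ∉ φ a ∧ ψ b = insert q (φ a) ∧
      (∀ x, x ≠ b → ψ x = φ x) ∧
      (∀ x ∈ X, ∀ y ∈ X, ψ x = ψ y → x = y) ∧
      (∀ x ∈ X, ∀ y ∈ X, (G.Adj x y ↔ (treeG c).Adj (ψ x) (ψ y))) := by
  classical
  obtain ⟨q, hq, hqF⟩ := hc i (X.biUnion φ)
  have hlt : ∀ x ∈ X, ∀ t ∈ φ x, t < q := fun x hx t ht =>
    hqF t (Finset.mem_biUnion.mpr ⟨x, hx, ht⟩)
  refine ⟨fun x => if x = b then insert q (φ a) else φ x, q, hq,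
    fun h => lt_irrefl _ (hlt a haX q h), if_pos rfl, fun x hx => if_neg hx, ?_, ?_⟩
  · intro x hx y hy hxy
    by_cases hxb : x = b
    · by_cases hyb : y = b
      · rw [hxb, hyb]
      · simp only [hxb, if_true, if_neg hyb] at hxy
        exfalso
        have : q ∈ φ y := by rw [← hxy]; exact Finset.mem_insert_self _ _
        exact lt_irrefl _ (hlt y hy q this)
    · by_cases hyb : y = b
      · simp only [hyb, if_true, if_neg hxb] at hxy
        exfalso
        have : q ∈ φ x := by rw [hxy]; exact Finset.mem_insert_self _ _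
        exact lt_irrefl _ (hlt x hx q this)
      · simp only [if_neg hxb, if_neg hyb] at hxy
        exact hinj x hx y hy hxb hyb hxy
  · have key : ∀ x ∈ X, x ≠ b → (G.Adj x b ↔ (treeG c).Adj (φ x) (insert q (φ a))) := by
      intro x hx hxb
      by_cases hxa : x = a
      · subst hxa
        rw [h1, adj_insert_self (hlt x hx), hq]
      · have hne : φ x ≠ φ a := fun h => hxa (hinj x hx a haX hxb hab h)
        rw [h2 x hx hxa hxb, adj_insert_ne (hlt a haX) (hlt x hx) hne, hq,
          hadj x hx a haX hxb hab]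
    intro x hx y hy
    by_cases hxb : x = b
    · by_cases hyb : y = b
      · rw [hxb, hyb]
        exact iff_of_false (G.loopless.irrefl _) ((treeG c).loopless.irrefl _)
      · simp only [hxb, if_true, if_neg hyb]
        rw [G.adj_comm, (treeG c).adj_comm]
        exact key y hy hyb
    · by_cases hyb : y = b
      · simp only [hyb, if_true, if_neg hxb]
        exact key x hx hxb
      · simp only [if_neg hxb, if_neg hyb]
        exact hadj x hx y hy hxb hyb

theorem fin_embed (hG : DHW G) (h : Lev G r C d)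
    (hc : ∀ (i : Fin 3) (F : Finset L), ∃ q, c q = i ∧ ∀ t ∈ F, t < q) :
    ∀ (n : ℕ) (X : Finset V), X.card = n → (∀ x ∈ X, x ∈ C) → r ∈ X →
      (∀ x ∈ X, x ≠ r → ∃ y ∈ X, G.Adj x y ∧ d y + 1 = d x) →
      ∀ wt : V → ℕ, (∀ x ∈ X, ∀ y ∈ X, wt x = wt y → x = y) →
      (∀ x ∈ X, x ≠ r → wt r < wt x) →
      ∃ φ : V → Finset L, (∀ x ∈ X, ∀ y ∈ X, φ x = φ y → x = y) ∧
        (∀ x ∈ X, ∀ y ∈ X, (G.Adj x y ↔ (treeG c).Adj (φ x) (φ y))) ∧
        (∀ x ∈ X, ((φ x).filter (fun t => c t ≠ 2)).card ≤ wt x) ∧
        (∀ x ∈ X, ((φ x).filter (fun t => c t = 2)).card ≤ d x) := by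
  classical
  intro n
  induction n with
  | zero =>
    intro X hX _ hr
    rw [Finset.card_eq_zero] at hX
    subst hX
    simp at hr
  | succ n ih =>
    intro X hX hXC hr hGC wt hwt hwr
    by_cases hn : n = 0
    · subst hn
      obtain ⟨x, hx⟩ := Finset.card_eq_one.mp (by simpa using hX)
      subst hx
      refine ⟨fun _ => ∅, ?_, ?_, ?_, ?_⟩
      · intro x hx y hy _
        rw [Finset.mem_singleton] at hx hy
        rw [hx, hy]
      · intro x hx y hy
        rw [Finset.mem_singleton] at hx hy
        rw [hx, hy]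
        exact iff_of_false (G.loopless.irrefl _) ((treeG c).loopless.irrefl _)
      · intro x _; simp
      · intro x _; simp
    obtain ⟨u, huX, v, hvX, huv, hvr, hcase⟩ := prune hG h X hXC hGC (by omega)
    -- a generic reduction: remove b, attached to a
    have red : ∀ (a b : V), a ∈ X → b ∈ X → a ≠ b → b ≠ r → ∀ (i : Fin 3),
        (G.Adj a b ↔ i ≠ 1) →
        (∀ x ∈ X, x ≠ a → x ≠ b → (G.Adj x b ↔ i ≠ 2 ∧ G.Adj x a)) →
        (∀ x ∈ X, x ≠ b → x ≠ r → ∃ y ∈ X, y ≠ b ∧ G.Adj x y ∧ d y + 1 = d x) →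
        (if i = 2 then True else wt a < wt b) →
        (if i = 2 then d b = d a + 1 else d b = d a) →
        ∃ φ : V → Finset L, (∀ x ∈ X, ∀ y ∈ X, φ x = φ y → x = y) ∧
        (∀ x ∈ X, ∀ y ∈ X, (G.Adj x y ↔ (treeG c).Adj (φ x) (φ y))) ∧
        (∀ x ∈ X, ((φ x).filter (fun t => c t ≠ 2)).card ≤ wt x) ∧
        (∀ x ∈ X, ((φ x).filter (fun t => c t = 2)).card ≤ d x) := by
      intro a b haX hbX hab hbr i h1 h2 hGC' hw hd
      let wt' : V → ℕ := fun x => if x = a then min (wt a) (wt b) else wt x
      have hX' : (X.erase b).card = n := by rw [Finset.card_erase_of_mem hbX]; omega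
      have hne : ∀ x ∈ X, x ≠ a → x ≠ b → wt x ≠ min (wt a) (wt b) := by
        intro x hx hxa hxb heq
        rcases min_choice (wt a) (wt b) with h' | h'
        · rw [h'] at heq; exact hxa (hwt x hx a haX heq)
        · rw [h'] at heq; exact hxb (hwt x hx b hbX heq)
      obtain ⟨φ, hφ1, hφ2, hφ3, hφ4⟩ := ih (X.erase b) hX'
        (fun x hx => hXC x (Finset.mem_of_mem_erase hx))
        (Finset.mem_erase.mpr ⟨hbr.symm, hr⟩)
        (by
          intro x hx hxr
          rw [Finset.mem_erase] at hx
          obtain ⟨y, hy, hyb, hxy, hdy⟩ := hGC' x hx.2 hx.1 hxr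
          exact ⟨y, Finset.mem_erase.mpr ⟨hyb, hy⟩, hxy, hdy⟩)
        wt'
        (by
          intro x hx y hy hxy
          rw [Finset.mem_erase] at hx hy
          simp only [wt'] at hxy
          split_ifs at hxy with h3 h4 h4
          · rw [h3, h4]
          · exact absurd hxy.symm (hne y hy.2 h4 hy.1)
          · exact absurd hxy (hne x hx.2 h3 hx.1)
          · exact hwt x hx.2 y hy.2 hxy)
        (by
          intro x hx hxr
          rw [Finset.mem_erase] at hx
          have hb := hwr b hbX hbr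
          have hx2 : wt r < wt x := hwr x hx.2 hxr
          show (if r = a then min (wt a) (wt b) else wt r) <
            (if x = a then min (wt a) (wt b) else wt x)
          by_cases h3 : r = a
          · by_cases h4 : x = a
            · exact absurd (h4.trans h3.symm) hxr
            · rw [if_pos h3, if_neg h4, ← h3]
              exact lt_of_le_of_lt (min_le_left _ _) hx2
          · by_cases h4 : x = a
            · rw [if_neg h3, if_pos h4, ← h4]
              exact lt_min hx2 hb
            · rw [if_neg h3, if_neg h4]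
              exact hx2)
      obtain ⟨ψ, q, hq, hqa, hψb, hψ, hψ1, hψ2⟩ := ext_step hc X a b haX hab φ
        (fun x hx y hy hxb hyb => hφ1 x (Finset.mem_erase.mpr ⟨hxb, hx⟩) y
          (Finset.mem_erase.mpr ⟨hyb, hy⟩))
        (fun x hx y hy hxb hyb => hφ2 x (Finset.mem_erase.mpr ⟨hxb, hx⟩) y
          (Finset.mem_erase.mpr ⟨hyb, hy⟩)) i h1 h2
      have hwt'le : ∀ x, wt' x ≤ wt x := by
        intro x
        simp only [wt']
        split_ifs with h3
        · rw [h3]; exact min_le_left _ _
        · exact le_rfl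
      have ha' := Finset.mem_erase.mpr ⟨hab, haX⟩
      refine ⟨ψ, hψ1, hψ2, ?_, ?_⟩
      · intro x hx
        by_cases hxb : x = b
        · subst hxb
          rw [hψb, Finset.filter_insert]
          have h5 := hφ3 a ha'
          have h6 : wt' a ≤ wt x := by
            simp only [wt', if_true]; exact min_le_right _ _
          split_ifs with h7
          · rw [hq] at h7
            rw [if_neg h7] at hw
            have h8 : wt' a ≤ wt a := hwt'le a
            have := Finset.card_insert_le q ((φ a).filter (fun t => c t ≠ 2))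
            omega
          · omega
        · rw [hψ x hxb]
          exact (hφ3 x (Finset.mem_erase.mpr ⟨hxb, hx⟩)).trans (hwt'le x)
      · intro x hx
        by_cases hxb : x = b
        · subst hxb
          rw [hψb, Finset.filter_insert]
          have h5 := hφ4 a ha'
          split_ifs with h7
          · rw [hq] at h7
            rw [if_pos h7] at hd
            have := Finset.card_insert_le q ((φ a).filter (fun t => c t = 2))
            omega
          · rw [hq] at h7
            rw [if_neg h7] at hd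
            omega
        · rw [hψ x hxb]
          exact hφ4 x (Finset.mem_erase.mpr ⟨hxb, hx⟩)
    rcases hcase with hpend | ⟨hur, hduv, htw⟩
    · -- pendant
      have huv' : G.Adj v u := (hpend u huX).mpr rfl
      have hdv : d v = d u + 1 := by
        obtain ⟨y, hy, hvy, hdy⟩ := hGC v hvX hvr
        have := (hpend y hy).mp hvy
        subst this
        omega
      refine red u v huX hvX huv hvr 2 (iff_of_true huv'.symm (by decide)) ?_ ?_ (by simp)
        (by simpa using hdv)
      · intro x hx hxu hxv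
        refine iff_of_false ?_ (fun h' => h'.1 rfl)
        intro h'
        exact hxu ((hpend x hx).mp h'.symm)
      · intro x hx hxv hxr
        obtain ⟨y, hy, hxy, hdy⟩ := hGC x hx hxr
        refine ⟨y, hy, ?_, hxy, hdy⟩
        rintro rfl
        have := (hpend x hx).mp hxy.symm
        subst this
        omega
    · -- twins
      have gc : ∀ a b : V, a ∈ X → d a = d b → a ≠ b →
          (∀ z ∈ X, z ≠ a → z ≠ b → (G.Adj a z ↔ G.Adj b z)) →
          (∀ x ∈ X, x ≠ b → x ≠ r → ∃ y ∈ X, y ≠ b ∧ G.Adj x y ∧ d y + 1 = d x) := by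
        intro a b haX hdab hab htw x hx hxb hxr
        obtain ⟨y, hy, hxy, hdy⟩ := hGC x hx hxr
        by_cases hyb : y = b
        · subst hyb
          have hxa : x ≠ a := by
            rintro rfl
            omega
          exact ⟨a, haX, hab, ((htw x hx hxa hxb).mpr hxy.symm).symm, by omega⟩
        · exact ⟨y, hy, hyb, hxy, hdy⟩
      let i : Fin 3 := if G.Adj u v then 0 else 1
      have hi1 : G.Adj u v ↔ i ≠ 1 := by
        simp only [i]
        split_ifs with h3
        · exact iff_of_true h3 (by decide)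
        · exact iff_of_false h3 (by simp)
      have hi2 : i ≠ 2 := by
        simp only [i]
        split_ifs <;> decide
      rcases lt_or_gt_of_ne (fun h' => huv (hwt u huX v hvX h')) with hlt | hlt
      · refine red u v huX hvX huv hvr i hi1 ?_ (gc u v huX hduv huv htw) (by rw [if_neg hi2]; exact hlt)
          (by rw [if_neg hi2]; exact hduv.symm)
        intro x hx hxu hxv
        rw [G.adj_comm x v, G.adj_comm x u, htw x hx hxu hxv]
        exact ⟨fun h' => ⟨hi2, h'⟩, fun h' => h'.2⟩
      · refine red v u hvX huX huv.symm hur i (by rw [G.adj_comm]; exact hi1) ?_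
          (gc v u hvX hduv.symm huv.symm (fun z hz h1 h2 => (htw z hz h2 h1).symm))
          (by rw [if_neg hi2]; exact hlt) (by rw [if_neg hi2]; exact hduv)
        intro x hx hxv hxu
        rw [G.adj_comm x v, G.adj_comm x u, htw x hx hxu hxv]
        exact ⟨fun h' => ⟨hi2, h'⟩, fun h' => h'.2⟩

end

end Pool.Agent.V11293.DH
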