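import Pool.Agent.V11293.DH.Univ

namespace Pool.Agent.V11293.DH

open SimpleGraph

universe u

section words
variable {V : Type u} [DecidableEq V]

/-- left multiplication of a reduced word by a letter -/
def push (a : V × Bool) : List (V × Bool) → List (V × Bool)
  | [] => [a]
  | hd :: tl => if a.1 = hd.1 ∧ a.2 = !hd.2 then tl else a :: hd :: tl

theorem toWord_letter_mul (a : V × Bool) (x : FreeGroup V) :
    (FreeGroup.mk [a] * x).toWord = push a x.toWord := by
  have h1 : FreeGroup.mk [a] * x = FreeGroup.mk (a :: x.toWord) := by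
    conv_lhs => rw [← FreeGroup.mk_toWord (x := x)]
    rw [FreeGroup.mul_mk]
    rfl
  rw [h1, FreeGroup.toWord_mk, FreeGroup.reduce.cons, FreeGroup.reduce_toWord]
  cases x.toWord <;> rfl

theorem toWord_of_mul (v : V) (x : FreeGroup V) :
    (FreeGroup.of v * x).toWord = push (v, true) x.toWord := toWord_letter_mul (v, true) x

theorem toWord_inv_of_mul (v : V) (x : FreeGroup V) :
    ((FreeGroup.of v)⁻¹ * x).toWord = push (v, false) x.toWord := toWord_letter_mul (v, false) x

theorem push_last {w : List (V × Bool)} {p u v : V} (huv : v ≠ u)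
    (h : w.getLast? = some (p, true)) :
    (push (u, true) (push (v, false) w)).getLast? = some (p, true) ∨ (w = [(p, true)] ∧ v = p) := by
  match w, h with
  | [], h => simp at h
  | hd :: tl, h =>
    by_cases h1 : v = hd.1 ∧ false = !hd.2
    · have h2 : push (v, false) (hd :: tl) = tl := if_pos h1
      rw [h2]
      have h3 : hd = (v, true) := by
        obtain ⟨h4, h5⟩ := h1
        ext
        · exact h4.symm
        · simpa using h5
      match tl, h with
      | [], h =>
        right
        rw [List.getLast?_singleton] at h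
        have h4 := Option.some.inj h
        rw [h4]
        rw [h3] at h4
        exact ⟨rfl, congrArg Prod.fst h4⟩
      | hd' :: tl', h =>
        left
        rw [List.getLast?_cons_cons] at h
        by_cases h4 : u = hd'.1 ∧ true = !hd'.2
        · have h5 : push (u, true) (hd' :: tl') = tl' := if_pos h4
          rw [h5]
          match tl', h with
          | [], h =>
            rw [List.getLast?_singleton] at h
            have h6 := Option.some.inj h
            rw [h6] at h4
            simp at h4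
          | hd'' :: tl'', h => rwa [List.getLast?_cons_cons] at h
        · have h5 : push (u, true) (hd' :: tl') = (u, true) :: hd' :: tl' := if_neg h4
          rw [h5, List.getLast?_cons_cons]
          exact h
    · left
      have h2 : push (v, false) (hd :: tl) = (v, false) :: hd :: tl := if_neg h1
      rw [h2]
      have h3 : push (u, true) ((v, false) :: hd :: tl) = (u, true) :: (v, false) :: hd :: tl :=
        if_neg (fun h4 => huv h4.1.symm)
      rw [h3, List.getLast?_cons_cons, List.getLast?_cons_cons]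
      exact h

/-- the element ends with the positive letter `p` -/
def Ends (x : FreeGroup V) (p : V) : Prop := x.toWord.getLast? = some (p, true)

theorem ends_of (p : V) : Ends (FreeGroup.of p) p := by
  unfold Ends
  rw [FreeGroup.toWord_of]
  rfl

theorem Ends.unique {x : FreeGroup V} {p q : V} (h : Ends x p) (h' : Ends x q) : p = q := by
  unfold Ends at h h'
  rw [h] at h'
  exact congrArg Prod.fst (Option.some.inj h')

theorem ends_step {x : FreeGroup V} {p u v : V} (huv : v ≠ u) (h : Ends x p) :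
    Ends (FreeGroup.of u * ((FreeGroup.of v)⁻¹ * x)) p ∨ (x = FreeGroup.of p ∧ v = p) := by
  rcases push_last huv h with h1 | ⟨h1, h2⟩
  · left
    unfold Ends
    rw [toWord_of_mul, toWord_inv_of_mul]
    exact h1
  · right
    refine ⟨FreeGroup.toWord_injective ?_, h2⟩
    rw [h1, FreeGroup.toWord_of]

end words

/-- The tree of copies of `U`. -/
def freeG {V : Type u} (U : SimpleGraph V) : SimpleGraph (FreeGroup V) where
  Adj x y := ∃ v u, U.Adj v u ∧ y = FreeGroup.of u * ((FreeGroup.of v)⁻¹ * x)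
  symm := ⟨by
    rintro x y ⟨v, u, h, rfl⟩
    exact ⟨u, v, h.symm, by group⟩⟩
  loopless := ⟨by
    rintro x ⟨v, u, h, h'⟩
    rw [← mul_assoc] at h'
    have h1 : FreeGroup.of u * (FreeGroup.of v)⁻¹ = 1 := by
      have h2 : (1 : FreeGroup V) * x = (FreeGroup.of u * (FreeGroup.of v)⁻¹) * x := by
        rw [one_mul]; exact h'
      exact (mul_right_cancel h2).symm
    rw [mul_inv_eq_one] at h1
    exact h.ne (FreeGroup.of_injective h1).symm⟩

section
variable {V : Type u} {U : SimpleGraph V} [DecidableEq V]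

theorem free_step {x z : FreeGroup V} {p : V} (h : (freeG U).Adj x z) (hx : Ends x p) :
    Ends z p ∨ (x = FreeGroup.of p ∧ ∃ u, z = FreeGroup.of u ∧ U.Adj p u) := by
  obtain ⟨v, u, h1, rfl⟩ := h
  rcases ends_step h1.ne hx with h2 | ⟨h2, h3⟩
  · exact Or.inl h2
  · right
    refine ⟨h2, u, ?_, h3 ▸ h1⟩
    rw [h2, h3]
    group

theorem free_adj_of {v u : V} : (freeG U).Adj (FreeGroup.of v) (FreeGroup.of u) ↔ U.Adj v u := by
  constructor
  · intro h
    rcases free_step h (ends_of v) with h1 | ⟨_, w, h1, h2⟩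
    · have h2 := h1.unique (ends_of u)
      subst h2
      exact absurd h ((freeG U).loopless.irrefl _)
    · have := FreeGroup.of_injective h1
      rw [this]; exact h2
  · intro h
    exact ⟨v, u, h, by group⟩

theorem free_adj_mul {x y : FreeGroup V} (h : FreeGroup V) :
    (freeG U).Adj (x * h) (y * h) ↔ (freeG U).Adj x y := by
  constructor
  · rintro ⟨v, u, h1, h2⟩
    refine ⟨v, u, h1, ?_⟩
    apply mul_right_cancel (b := h)
    rw [h2]
    group
  · rintro ⟨v, u, h1, rfl⟩
    exact ⟨v, u, h1, by group⟩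

theorem wk_mul {s : Set (FreeGroup V)} (h : FreeGroup V) : ∀ {n : ℕ} {x y : FreeGroup V},
    Wk (freeG U) s n x y → Wk (freeG U) {z | z * h⁻¹ ∈ s} n (x * h) (y * h)
  | 0, x, y, hw => by
    obtain ⟨rfl, hx⟩ := hw
    exact ⟨rfl, by simpa using hx⟩
  | n + 1, x, y, hw => by
    obtain ⟨hx, z, hz, hw⟩ := hw
    exact ⟨by simpa using hx, z * h, (free_adj_mul h).mpr hz, wk_mul h hw⟩

theorem wk_of {s : Set (FreeGroup V)} : ∀ {n : ℕ} {x y : V},
    Wk U {v | FreeGroup.of v ∈ s} n x y →
      Wk (freeG U) s n (FreeGroup.of x) (FreeGroup.of y)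
  | 0, x, y, hw => by
    obtain ⟨rfl, hx⟩ := hw
    exact ⟨rfl, hx⟩
  | n + 1, x, y, hw => by
    obtain ⟨hx, z, hz, hw⟩ := hw
    exact ⟨hx, _, free_adj_of.mpr hz, wk_of hw⟩

theorem wk_proj {s : Set (FreeGroup V)} : ∀ {n : ℕ} {x : FreeGroup V} {b p : V},
    Wk (freeG U) s n x (FreeGroup.of b) → Ends x p → FreeGroup.of p ∈ s →
      ∃ k ≤ n, Wk U {v | FreeGroup.of v ∈ s} k p b
  | 0, x, b, p, hw, hx, hp => by
    obtain ⟨rfl, hxs⟩ := hw
    have := hx.unique (ends_of b)
    subst this
    exact ⟨0, le_rfl, rfl, hp⟩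
  | n + 1, x, b, p, hw, hx, hp => by
    obtain ⟨hxs, z, hz, hw⟩ := hw
    rcases free_step hz hx with h1 | ⟨rfl, u, rfl, h2⟩
    · obtain ⟨k, hk, h3⟩ := wk_proj hw h1 hp
      exact ⟨k, by omega, h3⟩
    · obtain ⟨k, hk, h3⟩ := wk_proj hw (ends_of u) hw.left_mem
      exact ⟨k + 1, by omega, hxs, u, h2, h3⟩

theorem wk_split {s : Set (FreeGroup V)} : ∀ {n : ℕ} {x y : FreeGroup V} {p b : V},
    Wk (freeG U) s n x y → Ends x p → Ends y b →
      p = b ∨ ∃ n1 n2, n1 + n2 = n ∧ Wk (freeG U) s n1 x (FreeGroup.of b) ∧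
        Wk (freeG U) s n2 (FreeGroup.of b) y
  | 0, x, y, p, b, hw, hx, hy => by
    obtain ⟨rfl, hxs⟩ := hw
    exact Or.inl (hx.unique hy)
  | n + 1, x, y, p, b, hw, hx, hy => by
    obtain ⟨hxs, z, hz, hw⟩ := hw
    have pre : ∀ q, Ends z q → q = b → p = b ∨ ∃ n1 n2, n1 + n2 = n + 1 ∧
        Wk (freeG U) s n1 x (FreeGroup.of b) ∧ Wk (freeG U) s n2 (FreeGroup.of b) y := by
      intro q hq hqb
      rcases free_step hz hx with h1 | ⟨rfl, u, rfl, h2⟩
      · exact Or.inl (h1.unique hq ▸ hqb)
      · have h3 := hq.unique (ends_of u)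
        subst h3
        subst hqb
        exact Or.inr ⟨1, n, by omega, Wk.single hxs hw.left_mem hz, hw⟩
    have hzq : ∃ q, Ends z q := by
      rcases free_step hz hx with h1 | ⟨_, u, rfl, h2⟩
      · exact ⟨p, h1⟩
      · exact ⟨u, ends_of u⟩
    obtain ⟨q, hq⟩ := hzq
    rcases wk_split hw hq hy with h1 | ⟨n1, n2, h1, h2, h3⟩
    · exact pre q hq h1
    · exact Or.inr ⟨n1 + 1, n2, by omega, ⟨hxs, z, hz, h2⟩, h3⟩

theorem wk_gate : ∀ {n : ℕ} {x y : FreeGroup V}, Wk (freeG U) Set.univ n y x →
    y = x ∨ ∃ a b, a ≠ b ∧ Ends (y * (x⁻¹ * FreeGroup.of a)) b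
  | 0, x, y, hw => Or.inl hw.1
  | n + 1, x, y, hw => by
    obtain ⟨_, z, hz, hw⟩ := hw
    rcases wk_gate hw with rfl | ⟨a, b, hab, hb⟩
    · obtain ⟨v, u, h1, h2⟩ := hz.symm
      right
      refine ⟨v, u, h1.ne, ?_⟩
      have : y * (z⁻¹ * FreeGroup.of v) = FreeGroup.of u := by
        rw [h2]; group
      rw [this]
      exact ends_of u
    · have hz' := (free_adj_mul (x⁻¹ * FreeGroup.of a)).mpr hz.symm
      rcases free_step hz' hb with h1 | ⟨h1, u, h2, h3⟩
      · exact Or.inr ⟨a, b, hab, h1⟩
      · by_cases hua : u = a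
        · left
          subst hua
          have h4 : y * x⁻¹ = 1 := by
            apply mul_right_cancel (b := FreeGroup.of u)
            rw [one_mul, mul_assoc]
            exact h2
          exact mul_inv_eq_one.mp h4
        · right
          refine ⟨a, u, fun h => hua h.symm, ?_⟩
          rw [h2]
          exact ends_of u

theorem free_dhw_aux (hU : DHW U) : ∀ (m : ℕ) (s : Set (FreeGroup V)) (n : ℕ)
    (x y : FreeGroup V), Wk (freeG U) s n x y → Wk (freeG U) Set.univ m x y →
      ∃ k ≤ m, Wk (freeG U) s k x y := by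
  intro m
  induction m using Nat.strong_induction_on with
  | _ m ih =>
    intro s n x y hn hm
    rcases wk_gate hm.symm with rfl | ⟨a, b, hab, hb⟩
    · exact ⟨0, Nat.zero_le _, rfl, hn.left_mem⟩
    · let h := x⁻¹ * FreeGroup.of a
      have hxa : x * h = FreeGroup.of a := by simp only [h]; group
      have hn' := wk_mul h hn
      have hm' := (wk_mul h hm).mono (Set.subset_univ _)
      rw [hxa] at hn' hm'
      rcases wk_split hn' (ends_of a) hb with h1 | ⟨n1, n2, h1, h2, h3⟩
      · exact absurd h1 hab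
      rcases wk_split hm' (ends_of a) hb with h4 | ⟨m1, m2, h4, h5, h6⟩
      · exact absurd h4 hab
      have hm1 : m1 ≠ 0 := by
        rintro rfl
        exact hab (FreeGroup.of_injective h5.1)
      obtain ⟨k2, hk2, h7⟩ := ih m2 (by omega) _ n2 _ _ h3 h6
      obtain ⟨k, hk, h8⟩ := wk_proj h2 (ends_of a) h2.left_mem
      obtain ⟨k', hk', h9⟩ := wk_proj h5 (ends_of a) trivial
      obtain ⟨k1, hk1, h10⟩ := hU _ k k' a b h8 (h9.mono (Set.subset_univ _))
      have h11 := (wk_of h10).trans h7
      have h12 := wk_mul h⁻¹ h11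
      refine ⟨k1 + k2, by omega, ?_⟩
      have e1 : FreeGroup.of a * h⁻¹ = x := by rw [← hxa]; group
      have e2 : y * (x⁻¹ * FreeGroup.of a) * h⁻¹ = y := by simp only [h]; group
      rw [e1, e2] at h12
      refine h12.mono ?_
      intro z hz
      have hz' : z * (h⁻¹)⁻¹ * h⁻¹ ∈ s := hz
      rwa [inv_inv, mul_inv_cancel_right] at hz'

theorem free_dhw (hU : DHW U) : DHW (freeG U) := fun s n m x y => free_dhw_aux hU m s n x y

end

end Pool.Agent.V11293.DH
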