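import Pool.Agent.V11293.DH.Cograph

namespace Pool.Agent.V11293.DH

open SimpleGraph

universe u

variable {V : Type u}

structure Lev (G : SimpleGraph V) (r : V) (C : Set V) (d : V → ℕ) : Prop where
  walk : ∀ x ∈ C, Wk G Set.univ (d x) x r
  le : ∀ x ∈ C, ∀ j, Wk G Set.univ j x r → d x ≤ j
  closed : ∀ x ∈ C, ∀ y, G.Adj x y → y ∈ C
  root : r ∈ C

variable {G : SimpleGraph V} {r : V} {C : Set V} {d : V → ℕ}

theorem Lev.d_root (h : Lev G r C d) : d r = 0 :=
  Nat.le_zero.mp (h.le r h.root 0 (Wk.refl trivial))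

theorem Lev.eq_root (h : Lev G r C d) {x : V} (hx : x ∈ C) (h0 : d x = 0) : x = r := by
  have := h.walk x hx
  rw [h0] at this
  exact this.1

theorem Lev.adj_le (h : Lev G r C d) {x y : V} (hx : x ∈ C) (hxy : G.Adj x y) :
    d y ≤ d x + 1 := by
  apply h.le y (h.closed x hx y hxy)
  exact Wk.cons trivial hxy.symm (h.walk x hx)

theorem Lev.pred (h : Lev G r C d) {x : V} (hx : x ∈ C) {k : ℕ} (hk : d x = k + 1) :
    ∃ y ∈ C, G.Adj x y ∧ d y = k := by
  have h1 := h.walk x hx
  rw [hk] at h1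
  obtain ⟨_, z, hz, h1⟩ := h1
  have hzC := h.closed x hx z hz
  have h2 := h.le z hzC k h1
  have h3 := h.adj_le hzC hz.symm
  exact ⟨z, hzC, hz, by omega⟩

theorem Lev.geo (h : Lev G r C d) : ∀ (k : ℕ) (y : V), y ∈ C → d y = k →
    ∃ P : Set V, Wk G P k y r ∧ ∀ z ∈ P, z ∈ C ∧ (d z < k ∨ z = y) := by
  intro k
  induction k with
  | zero =>
    intro y hy hk
    have := h.eq_root hy hk
    subst this
    exact ⟨{y}, Wk.refl rfl, fun z hz => by
      rw [Set.mem_singleton_iff] at hz; subst hz; exact ⟨hy, Or.inr rfl⟩⟩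
  | succ k ih =>
    intro y hy hk
    obtain ⟨z, hzC, hyz, hz⟩ := h.pred hy hk
    obtain ⟨P, hP, hP2⟩ := ih z hzC hz
    refine ⟨insert y P, Wk.cons (Set.mem_insert _ _) hyz (hP.mono (Set.subset_insert _ _)), ?_⟩
    intro w hw
    rcases hw with hw | hw
    · subst hw; exact ⟨hy, Or.inr rfl⟩
    · obtain ⟨h1, h2⟩ := hP2 w hw
      refine ⟨h1, Or.inl ?_⟩
      rcases h2 with h2 | h2
      · omega
      · subst h2; omega

theorem Lev.f1 (hG : DHW G) (h : Lev G r C d) {x y w : V} (hx : x ∈ C) (hxy : G.Adj x y)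
    (hd : d y = d x) (hw : G.Adj x w) (hdw : d w + 1 = d x) : G.Adj y w := by
  by_contra hyw
  have hwC := h.closed x hx w hw
  have hyC := h.closed x hx y hxy
  obtain ⟨P, hP, hP2⟩ := h.geo (d w) w hwC rfl
  let s : Set V := insert y (insert x P)
  have hPs : P ⊆ s := fun z hz => Set.mem_insert_of_mem _ (Set.mem_insert_of_mem _ hz)
  have hxs : x ∈ s := Set.mem_insert_of_mem _ (Set.mem_insert _ _)
  have hys : y ∈ s := Set.mem_insert _ _
  have hW : Wk G s (d w + 1 + 1) y r := Wk.cons hys hxy.symm (Wk.cons hxs hw (hP.mono hPs))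
  obtain ⟨k, hk, hk'⟩ := hG s _ _ y r hW (h.walk y hyC)
  cases k with
  | zero =>
    have := hk'.1
    subst this
    have := h.d_root
    omega
  | succ k =>
    obtain ⟨_, z, hz, hk'⟩ := hk'
    have hzs := hk'.left_mem
    rcases hzs with h1 | h1 | h1
    · subst h1; exact G.loopless.irrefl _ hz
    · subst h1
      have := h.le z hx k (hk'.mono (Set.subset_univ _))
      omega
    · obtain ⟨hzC, h2⟩ := hP2 z h1
      rcases h2 with h2 | h2
      · have := h.adj_le hzC hz.symm
        omega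
      · subst h2; exact hyw hz

theorem Lev.f2 (hG : DHW G) (h : Lev G r C d) {v a b w : V} (hv : v ∈ C) (hva : G.Adj v a)
    (hvb : G.Adj v b) (hda : d a + 1 = d v) (hdb : d b + 1 = d v) (hw : G.Adj a w)
    (hdw : d w + 1 = d a) : G.Adj b w := by
  have haC := h.closed v hv a hva
  have hbC := h.closed v hv b hvb
  by_cases hab : G.Adj a b
  · exact h.f1 hG haC hab (by omega) hw hdw
  by_contra hbw
  have hwC := h.closed a haC w hw
  obtain ⟨P, hP, hP2⟩ := h.geo (d w) w hwC rfl
  let s : Set V := insert b (insert v (insert a P))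
  have hPs : P ⊆ s := fun z hz =>
    Set.mem_insert_of_mem _ (Set.mem_insert_of_mem _ (Set.mem_insert_of_mem _ hz))
  have hbs : b ∈ s := Set.mem_insert _ _
  have hvs : v ∈ s := Set.mem_insert_of_mem _ (Set.mem_insert _ _)
  have has : a ∈ s := Set.mem_insert_of_mem _ (Set.mem_insert_of_mem _ (Set.mem_insert _ _))
  have hW : Wk G s (d w + 1 + 1 + 1) b r :=
    Wk.cons hbs hvb.symm (Wk.cons hvs hva (Wk.cons has hw (hP.mono hPs)))
  obtain ⟨k, hk, hk'⟩ := hG s _ _ b r hW (h.walk b hbC)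
  cases k with
  | zero =>
    have := hk'.1
    subst this
    have := h.d_root
    omega
  | succ k =>
    obtain ⟨_, z, hz, hk'⟩ := hk'
    have hzs := hk'.left_mem
    rcases hzs with h1 | h1 | h1 | h1
    · subst h1; exact G.loopless.irrefl _ hz
    · subst h1
      have := h.le z hv k (hk'.mono (Set.subset_univ _))
      omega
    · subst h1; exact hab hz.symm
    · obtain ⟨hzC, h2⟩ := hP2 z h1
      rcases h2 with h2 | h2
      · have := h.adj_le hzC hz.symm
        omega
      · subst h2; exact hbw hz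

theorem p4 (hG : DHW G) {a b c e z : V} (h1 : G.Adj a b) (h2 : G.Adj b c) (h3 : G.Adj c e)
    (n1 : ¬ G.Adj a c) (n2 : ¬ G.Adj b e) (n3 : ¬ G.Adj a e) (hza : G.Adj z a)
    (hze : G.Adj z e) : False := by
  let s : Set V := {a, b, c, e}
  have ma : a ∈ s := by simp [s]
  have mb : b ∈ s := by simp [s]
  have mc : c ∈ s := by simp [s]
  have me : e ∈ s := by simp [s]
  have hW : Wk G s 3 a e := Wk.cons ma h1 (Wk.cons mb h2 (Wk.single mc me h3))
  have hU : Wk G Set.univ 2 a e := Wk.cons trivial hza.symm (Wk.single trivial trivial hze)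
  obtain ⟨k, hk, hk'⟩ := hG s _ _ a e hW hU
  have hae : a ≠ e := by
    rintro rfl
    exact n1 h3.symm
  interval_cases k
  · exact hae hk'.1
  · obtain ⟨_, y, hy, hk'⟩ := hk'
    have := hk'.1
    subst this
    exact n3 hy
  · obtain ⟨_, y, hy, _, y', hy', hk'⟩ := hk'
    have := hk'.1
    subst this
    rename_i hys
    simp only [s, Set.mem_insert_iff, Set.mem_singleton_iff] at hys
    rcases hys with h | h | h | h
    · subst h; exact G.loopless.irrefl _ hy
    · subst h; exact n2 hy'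
    · subst h; exact n1 hy
    · subst h; exact G.loopless.irrefl _ hy'

theorem p5 (hG : DHW G) {a b c e f z : V} (h1 : G.Adj a b) (h2 : G.Adj b c) (h3 : G.Adj c e)
    (h4 : G.Adj e f) (n1 : ¬ G.Adj a c) (n2 : ¬ G.Adj a e) (n3 : ¬ G.Adj a f)
    (n4 : ¬ G.Adj b f) (n5 : ¬ G.Adj c f) (hza : G.Adj z a)
    (hzf : G.Adj z f) (haf : a ≠ f) : False := by
  let s : Set V := {a, b, c, e, f}
  have ma : a ∈ s := by simp [s]
  have mb : b ∈ s := by simp [s]
  have mc : c ∈ s := by simp [s]
  have me : e ∈ s := by simp [s]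
  have mf : f ∈ s := by simp [s]
  have hW : Wk G s 4 a f := Wk.cons ma h1 (Wk.cons mb h2 (Wk.cons mc h3 (Wk.single me mf h4)))
  have hU : Wk G Set.univ 2 a f := Wk.cons trivial hza.symm (Wk.single trivial trivial hzf)
  obtain ⟨k, hk, hk'⟩ := hG s _ _ a f hW hU
  interval_cases k
  · exact haf hk'.1
  · obtain ⟨_, y, hy, hk'⟩ := hk'
    have := hk'.1
    subst this
    exact n3 hy
  · obtain ⟨_, y, hy, hys, y', hy', hk'⟩ := hk'
    have := hk'.1
    subst this
    simp only [s, Set.mem_insert_iff, Set.mem_singleton_iff] at hys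
    rcases hys with h | h | h | h | h
    · subst h; exact G.loopless.irrefl _ hy
    · subst h; exact n4 hy'
    · subst h; exact n1 hy
    · subst h; exact n2 hy
    · subst h; exact G.loopless.irrefl _ hy'

end Pool.Agent.V11293.DH
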