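import Pool.Agent.V11293.DH.Fin

namespace Pool.Agent.V11293.DH

open SimpleGraph Filter

universe u w v

section transport
variable {L : Type u} {L' : Type v} [LinearOrder L] [LinearOrder L'] {c : L → Fin 3}
  {c' : L' → Fin 3}

theorem FD.mem_or {A B : Finset L} {q : L} (h : FD A B q) : q ∈ A ∨ q ∈ B := by
  by_contra h'
  rw [not_or] at h'
  exact h.1 (iff_of_false h'.1 h'.2)

theorem mem_image_on {f : L → L'} {S : Set L} (hf : StrictMonoOn f S) {A : Finset L}
    (hA : ∀ t ∈ A, t ∈ S) {q : L} (hq : q ∈ S) : f q ∈ A.image f ↔ q ∈ A := by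
  rw [Finset.mem_image]
  constructor
  · rintro ⟨t, ht, htq⟩
    rwa [← hf.injOn (hA t ht) hq htq]
  · intro h
    exact ⟨q, h, rfl⟩

theorem fd_image {f : L → L'} {S : Set L} (hf : StrictMonoOn f S) {A B : Finset L}
    (hA : ∀ t ∈ A, t ∈ S) (hB : ∀ t ∈ B, t ∈ S) {q : L} (h : FD A B q) :
    FD (A.image f) (B.image f) (f q) := by
  have hq : q ∈ S := h.mem_or.elim (hA q) (hB q)
  refine ⟨?_, ?_⟩
  · rw [mem_image_on hf hA hq, mem_image_on hf hB hq]
    exact h.1
  · intro t ht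
    constructor
    · intro htA
      obtain ⟨s, hs, rfl⟩ := Finset.mem_image.mp htA
      have hlt : s < q := (hf.lt_iff_lt (hA s hs) hq).mp ht
      exact Finset.mem_image_of_mem f ((h.2 s hlt).mp hs)
    · intro htB
      obtain ⟨s, hs, rfl⟩ := Finset.mem_image.mp htB
      have hlt : s < q := (hf.lt_iff_lt (hB s hs) hq).mp ht
      exact Finset.mem_image_of_mem f ((h.2 s hlt).mpr hs)

theorem nb_image {f : L → L'} {S : Set L} (hf : StrictMonoOn f S)
    (hc : ∀ t ∈ S, c' (f t) = c t) {A : Finset L}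
    (hA : ∀ t ∈ A, t ∈ S) {q : L} (hq : q ∈ S) :
    NB c' (A.image f) (f q) ↔ NB c A q := by
  constructor
  · intro h t ht hqt
    rw [← hc t (hA t ht)]
    exact h (f t) (Finset.mem_image_of_mem f ht) ((hf.lt_iff_lt hq (hA t ht)).mpr hqt)
  · intro h t ht hqt
    obtain ⟨s, hs, rfl⟩ := Finset.mem_image.mp ht
    rw [hc s (hA s hs)]
    exact h s hs ((hf.lt_iff_lt hq (hA s hs)).mp hqt)

theorem adj_image {f : L → L'} {S : Set L} (hf : StrictMonoOn f S)
    (hc : ∀ t ∈ S, c' (f t) = c t) {A B : Finset L}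
    (hA : ∀ t ∈ A, t ∈ S) (hB : ∀ t ∈ B, t ∈ S) :
    (treeG c').Adj (A.image f) (B.image f) ↔ (treeG c).Adj A B := by
  by_cases hAB : A = B
  · subst hAB
    exact iff_of_false ((treeG c').loopless.irrefl _) ((treeG c).loopless.irrefl _)
  obtain ⟨q, hq⟩ := FD.exists hAB
  have hqS : q ∈ S := hq.mem_or.elim (hA q) (hB q)
  have hq' := fd_image hf hA hB hq
  constructor
  · rintro ⟨p, h1, h2, h3, h4⟩
    have := h1.unique hq'
    subst this
    rw [hc q hqS] at h2
    rw [nb_image hf hc hA hqS] at h3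
    rw [nb_image hf hc hB hqS] at h4
    exact ⟨q, hq, h2, h3, h4⟩
  · rintro ⟨p, h1, h2, h3, h4⟩
    have := h1.unique hq
    subst this
    refine ⟨f p, hq', ?_, ?_, ?_⟩
    · rwa [hc p hqS]
    · rwa [nb_image hf hc hA hqS]
    · rwa [nb_image hf hc hB hqS]

theorem inj_image {f : L → L'} {S : Set L} (hf : StrictMonoOn f S) {A B : Finset L}
    (hA : ∀ t ∈ A, t ∈ S) (hB : ∀ t ∈ B, t ∈ S) (h : A.image f = B.image f) : A = B := by
  by_contra hAB
  obtain ⟨q, hq⟩ := FD.exists hAB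
  exact (fd_image hf hA hB hq).ne h

end transport

/-- the universal coloured order: `ℚ × Fin 3` lexicographically, coloured by the second
coordinate -/
abbrev QL : Type := ℚ ×ₗ Fin 3

def qcol (t : QL) : Fin 3 := (ofLex t).2

theorem countable_coord {L : Type u} [LinearOrder L] (c : L → Fin 3) (S : Set L)
    (hS : S.Countable) : ∃ f : L → QL, StrictMonoOn f S ∧ ∀ t ∈ S, qcol (f t) = c t := by
  classical
  have : Countable S := hS.to_subtype
  obtain ⟨e⟩ := Order.embedding_from_countable_to_dense S ℚ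
  refine ⟨fun t => if h : t ∈ S then toLex (e ⟨t, h⟩, c t) else toLex (0, 0), ?_, ?_⟩
  · intro s hs t ht hst
    simp only [dif_pos hs, dif_pos ht]
    rw [Prod.Lex.toLex_lt_toLex]
    left
    exact e.lt_iff_lt.mpr (show (⟨s, hs⟩ : S) < ⟨t, ht⟩ from hst)
  · intro t ht
    simp only [dif_pos ht, qcol]
    rfl

section germs
variable {I : Type u} (U : Ultrafilter I) {L : Type w} [LinearOrder L] {c : L → Fin 3}

theorem ult_fin3 (a : I → Fin 3) : ∃ i, ∀ᶠ Y in (U : Filter I), a Y = i := by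
  by_contra h
  have h' : ∀ i, ∀ᶠ Y in (U : Filter I), ¬ a Y = i := by
    intro i
    exact Ultrafilter.eventually_not.mpr (fun h'' => h ⟨i, h''⟩)
  have := (eventually_all.mpr h').exists
  obtain ⟨Y, hY⟩ := this
  exact hY (a Y) rfl

open Classical in
/-- colour of a germ -/
noncomputable def gcol (c : L → Fin 3) (g : (U : Filter I).Germ L) : Fin 3 :=
  if g.LiftPred (fun t => c t = 0) then 0 else if g.LiftPred (fun t => c t = 1) then 1 else 2

theorem gcol_of {a : I → L} {i : Fin 3} (h : ∀ᶠ Y in (U : Filter I), c (a Y) = i) :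
    gcol U c (a : (U : Filter I).Germ L) = i := by
  classical
  have hne : ∀ j, j ≠ i → ¬ ∀ᶠ Y in (U : Filter I), c (a Y) = j := by
    intro j hj h'
    obtain ⟨Y, hY⟩ := (h.and h').exists
    exact hj (hY.2.symm.trans hY.1)
  unfold gcol
  rw [Germ.liftPred_coe, Germ.liftPred_coe]
  match i, h, hne with
  | 0, h, hne => rw [if_pos h]
  | 1, h, hne => rw [if_neg (hne 0 (by decide)), if_pos h]
  | 2, h, hne => rw [if_neg (hne 0 (by decide)), if_neg (hne 1 (by decide))]

theorem gcol_iff {a : I → L} {i : Fin 3} :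
    gcol U c (a : (U : Filter I).Germ L) = i ↔ ∀ᶠ Y in (U : Filter I), c (a Y) = i := by
  constructor
  · intro h
    obtain ⟨j, hj⟩ := ult_fin3 U (fun Y => c (a Y))
    have := gcol_of U hj
    rw [this] at h
    subst h
    exact hj
  · exact gcol_of U

/-- the germs with values eventually in `φ Y` -/
def gset (φ : I → Finset L) : Set ((U : Filter I).Germ L) :=
  {g | ∃ a : I → L, g = (a : (U : Filter I).Germ L) ∧ ∀ᶠ Y in (U : Filter I), a Y ∈ φ Y}

theorem mem_gset {φ : I → Finset L} {a : I → L} :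
    (a : (U : Filter I).Germ L) ∈ gset U φ ↔ ∀ᶠ Y in (U : Filter I), a Y ∈ φ Y := by
  constructor
  · rintro ⟨b, hab, hb⟩
    have := Germ.coe_eq.mp hab
    filter_upwards [this, hb] with Y h1 h2
    rw [h1]; exact h2
  · intro h
    exact ⟨a, rfl, h⟩

theorem gset_finite {φ : I → Finset L} {B : ℕ}
    (h : ∀ᶠ Y in (U : Filter I), (φ Y).card ≤ B) : (gset U φ).Finite := by
  classical
  by_contra hinf
  obtain ⟨T, hT, hcard⟩ := Set.Infinite.exists_subset_card_eq (show (gset U φ).Infinite from hinf)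
    (B + 1)
  have hrep : ∀ g : (U : Filter I).Germ L, ∃ a : I → L, g = (a : (U : Filter I).Germ L) := by
    intro g
    induction g using Germ.inductionOn with
    | h a => exact ⟨a, rfl⟩
  choose rep hrep1 using hrep
  have hrep2 : ∀ g ∈ T, ∀ᶠ Y in (U : Filter I), rep g Y ∈ φ Y := by
    intro g hg
    have h3 := hT hg
    rw [hrep1 g] at h3
    exact (mem_gset U).mp h3
  have h1 : ∀ᶠ Y in (U : Filter I), ∀ g ∈ T, rep g Y ∈ φ Y :=
    (eventually_all_finset T).mpr hrep2
  have h2 : ∀ᶠ Y in (U : Filter I), ∀ g ∈ T, ∀ g' ∈ T, g ≠ g' → rep g Y ≠ rep g' Y := by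
    rw [eventually_all_finset T]
    intro g hg
    rw [eventually_all_finset T]
    intro g' hg'
    by_cases hgg : g = g'
    · exact Eventually.of_forall (fun Y h' => absurd hgg h')
    · have : ¬ ∀ᶠ Y in (U : Filter I), rep g Y = rep g' Y := by
        intro h'
        apply hgg
        rw [hrep1 g, hrep1 g']
        exact Germ.coe_eq.mpr h'
      have := Ultrafilter.eventually_not.mpr this
      filter_upwards [this] with Y hY _
      exact hY
  obtain ⟨Y, hY, hY1, hY2⟩ := (h.and (h1.and h2)).exists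
  have := Finset.card_le_card_of_injOn (s := T) (t := φ Y) (fun g => rep g Y)
    (fun g hg => hY1 g hg) (fun g hg g' hg' hgg => by
      by_contra hne
      exact hY2 g hg g' hg' hne hgg)
  omega

theorem germ_fd {φ ψ : I → Finset L} {q : I → L} {A B : Finset ((U : Filter I).Germ L)}
    (hA : ∀ a : I → L, (a : (U : Filter I).Germ L) ∈ A ↔ ∀ᶠ Y in (U : Filter I), a Y ∈ φ Y)
    (hB : ∀ a : I → L, (a : (U : Filter I).Germ L) ∈ B ↔ ∀ᶠ Y in (U : Filter I), a Y ∈ ψ Y)
    (h : ∀ᶠ Y in (U : Filter I), FD (φ Y) (ψ Y) (q Y)) :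
    FD A B (q : (U : Filter I).Germ L) := by
  refine ⟨?_, ?_⟩
  · rw [hA, hB]
    intro h'
    by_cases h1 : ∀ᶠ Y in (U : Filter I), q Y ∈ φ Y
    · have h2 := h'.mp h1
      obtain ⟨Y, hY1, hY2, hY3⟩ := (h.and (h1.and h2)).exists
      exact hY1.1 (iff_of_true hY2 hY3)
    · have h2 : ¬ ∀ᶠ Y in (U : Filter I), q Y ∈ ψ Y := fun h2 => h1 (h'.mpr h2)
      have h1' := Ultrafilter.eventually_not.mpr h1
      have h2' := Ultrafilter.eventually_not.mpr h2
      obtain ⟨Y, hY1, hY2, hY3⟩ := (h.and (h1'.and h2')).exists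
      exact hY1.1 (iff_of_false hY2 hY3)
  · intro t
    induction t using Germ.inductionOn with
    | h a =>
      intro ht
      rw [Germ.coe_lt] at ht
      rw [hA, hB]
      apply eventually_congr
      filter_upwards [ht, h] with Y h1 h2
      exact h2.2 (a Y) h1

theorem germ_nb {φ : I → Finset L} {q : I → L} {A : Finset ((U : Filter I).Germ L)}
    (hA : ∀ a : I → L, (a : (U : Filter I).Germ L) ∈ A ↔ ∀ᶠ Y in (U : Filter I), a Y ∈ φ Y) :
    NB (gcol U c) A (q : (U : Filter I).Germ L) ↔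
      ∀ᶠ Y in (U : Filter I), NB c (φ Y) (q Y) := by
  classical
  constructor
  · intro h
    by_contra h'
    have h1 := Ultrafilter.eventually_not.mpr h'
    let a : I → L := fun Y => if hY : ∃ t ∈ φ Y, q Y < t ∧ c t = 2 then hY.choose else q Y
    have ha : ∀ᶠ Y in (U : Filter I), a Y ∈ φ Y ∧ q Y < a Y ∧ c (a Y) = 2 := by
      filter_upwards [h1] with Y hY
      have hY' : ∃ t ∈ φ Y, q Y < t ∧ c t = 2 := by
        unfold NB at hY
        push Not at hY
        exact hY
      have : a Y = hY'.choose := dif_pos hY'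
      rw [this]
      exact hY'.choose_spec
    have ha1 : (a : (U : Filter I).Germ L) ∈ A := (hA a).mpr (ha.mono fun Y hY => hY.1)
    have ha2 : (q : (U : Filter I).Germ L) < (a : (U : Filter I).Germ L) :=
      Germ.coe_lt.mpr (ha.mono fun Y hY => hY.2.1)
    exact h _ ha1 ha2 (gcol_of U (ha.mono fun Y hY => hY.2.2))
  · intro h t
    induction t using Germ.inductionOn with
    | h a =>
      intro ht hqt hcol
      rw [Germ.coe_lt] at hqt
      rw [hA] at ht
      rw [gcol_iff] at hcol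
      obtain ⟨Y, ⟨h1, h2⟩, h3, h4⟩ := ((h.and ht).and (hqt.and hcol)).exists
      exact h1 (a Y) h2 h3 h4

end germs

section
variable {V : Type u} {G : SimpleGraph V} {r : V} {C : Set V} {d : V → ℕ}

theorem pc_point (h : Lev G r C d) : ∀ (k : ℕ) (x : V), x ∈ C → d x = k →
    ∃ P : Finset V, x ∈ P ∧ r ∈ P ∧ (∀ y ∈ P, y ∈ C) ∧
      ∀ y ∈ P, y ≠ r → ∃ z ∈ P, G.Adj y z ∧ d z + 1 = d y := by
  classical
  intro k
  induction k with
  | zero =>
    intro x hx hk
    have := h.eq_root hx hk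
    subst this
    refine ⟨{x}, Finset.mem_singleton_self _, Finset.mem_singleton_self _, ?_, ?_⟩
    · intro y hy
      rw [Finset.mem_singleton] at hy
      subst hy; exact hx
    · intro y hy hyx
      exact absurd (Finset.mem_singleton.mp hy) hyx
  | succ k ih =>
    intro x hx hk
    obtain ⟨y, hyC, hxy, hdy⟩ := h.pred hx hk
    obtain ⟨P, h1, h2, h3, h4⟩ := ih y hyC hdy
    refine ⟨insert x P, Finset.mem_insert_self _ _, Finset.mem_insert_of_mem h2, ?_, ?_⟩
    · intro z hz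
      rcases Finset.mem_insert.mp hz with rfl | hz
      · exact hx
      · exact h3 z hz
    · intro z hz hzr
      rcases Finset.mem_insert.mp hz with rfl | hz
      · exact ⟨y, Finset.mem_insert_of_mem h1, hxy, by omega⟩
      · obtain ⟨w, hw, h5, h6⟩ := h4 z hz hzr
        exact ⟨w, Finset.mem_insert_of_mem hw, h5, h6⟩

theorem pc_set (h : Lev G r C d) (Y : Finset V) :
    ∃ X : Finset V, (∀ y ∈ Y, y ∈ C → y ∈ X) ∧ r ∈ X ∧ (∀ y ∈ X, y ∈ C) ∧
      ∀ y ∈ X, y ≠ r → ∃ z ∈ X, G.Adj y z ∧ d z + 1 = d y := by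
  classical
  choose! P h1 h2 h3 h4 using (fun (x : V) (hx : x ∈ C) => pc_point h (d x) x hx rfl)
  refine ⟨(insert r (Y.filter (· ∈ C))).biUnion P, ?_, ?_, ?_, ?_⟩
  · intro y hy hyC
    exact Finset.mem_biUnion.mpr ⟨y, Finset.mem_insert_of_mem
      (Finset.mem_filter.mpr ⟨hy, hyC⟩), h1 y hyC⟩
  · exact Finset.mem_biUnion.mpr ⟨r, Finset.mem_insert_self _ _, h1 r h.root⟩
  · intro y hy
    obtain ⟨x, hx, hyx⟩ := Finset.mem_biUnion.mp hy
    rcases Finset.mem_insert.mp hx with rfl | hx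
    · exact h3 x h.root y hyx
    · exact h3 x (Finset.mem_filter.mp hx).2 y hyx
  · intro y hy hyr
    obtain ⟨x, hx, hyx⟩ := Finset.mem_biUnion.mp hy
    have hxC : x ∈ C := by
      rcases Finset.mem_insert.mp hx with rfl | hx
      · exact h.root
      · exact (Finset.mem_filter.mp hx).2
    obtain ⟨z, hz, h5, h6⟩ := h4 x hxC y hyx hyr
    exact ⟨z, Finset.mem_biUnion.mpr ⟨x, hx, hz⟩, h5, h6⟩

theorem nl_unbounded (i : Fin 3) (F : Finset (ℕ ×ₗ Fin 3)) :
    ∃ q : ℕ ×ₗ Fin 3, (ofLex q).2 = i ∧ ∀ t ∈ F, t < q := by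
  refine ⟨toLex (F.sup (fun t => (ofLex t).1) + 1, i), rfl, ?_⟩
  intro t ht
  have : (ofLex t).1 ≤ F.sup (fun t => (ofLex t).1) :=
    Finset.le_sup (f := fun t : ℕ ×ₗ Fin 3 => (ofLex t).1) ht
  rw [Prod.Lex.lt_iff]
  left
  change (ofLex t).1 < F.sup (fun t => (ofLex t).1) + 1
  omega

theorem comp_embed [Countable V] (hG : DHW G) (h : Lev G r C d) :
    ∃ φ : V → Finset QL, (∀ x ∈ C, ∀ y ∈ C, φ x = φ y → x = y) ∧
      ∀ x ∈ C, ∀ y ∈ C, (G.Adj x y ↔ (treeG qcol).Adj (φ x) (φ y)) := by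
  classical
  obtain ⟨f, hf⟩ := Countable.exists_injective_nat V
  let wt : V → ℕ := fun x => if x = r then 0 else f x + 1
  have hwt : ∀ x y, wt x = wt y → x = y := by
    intro x y hxy
    simp only [wt] at hxy
    split_ifs at hxy with h1 h2 h2
    · rw [h1, h2]
    · exact hf (by omega)
  have hwr : ∀ x, x ≠ r → wt r < wt x := by
    intro x hx
    simp only [wt, if_true, if_neg hx]
    omega
  let L := ℕ ×ₗ Fin 3
  let c : L → Fin 3 := fun t => (ofLex t).2
  have hc : ∀ (i : Fin 3) (F : Finset L), ∃ q, c q = i ∧ ∀ t ∈ F, t < q := nl_unbounded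
  -- finite embeddings
  have hfin : ∀ Y : Finset V, ∃ φ : V → Finset L,
      (∀ x ∈ Y, x ∈ C → ∀ y ∈ Y, y ∈ C → φ x = φ y → x = y) ∧
      (∀ x ∈ Y, x ∈ C → ∀ y ∈ Y, y ∈ C → (G.Adj x y ↔ (treeG c).Adj (φ x) (φ y))) ∧
      (∀ x ∈ Y, x ∈ C → (φ x).card ≤ wt x + d x) := by
    intro Y
    obtain ⟨X, h1, h2, h3, h4⟩ := pc_set h Y
    obtain ⟨φ, h5, h6, h7, h8⟩ := fin_embed hG h hc X.card X rfl h3 h2 h4 wt
      (fun x _ y _ => hwt x y) (fun x _ => hwr x)
    refine ⟨φ, fun x hx hxC y hy hyC => h5 x (h1 x hx hxC) y (h1 y hy hyC),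
      fun x hx hxC y hy hyC => h6 x (h1 x hx hxC) y (h1 y hy hyC), ?_⟩
    intro x hx hxC
    have h9 := h7 x (h1 x hx hxC)
    have h10 := h8 x (h1 x hx hxC)
    have h11 : ((φ x).filter (fun t => c t = 2)).card + ((φ x).filter (fun t => c t ≠ 2)).card
        = (φ x).card := Finset.card_filter_add_card_filter_not (s := φ x) (fun t => c t = 2)
    omega
  choose φ hφ1 hφ2 hφ3 using hfin
  let U : Ultrafilter (Finset V) := Ultrafilter.of atTop
  have hU : ∀ x : V, ∀ᶠ Y in (U : Filter (Finset V)), x ∈ Y := by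
    intro x
    have h1 : ∀ᶠ Y : Finset V in atTop, x ∈ Y := by
      filter_upwards [eventually_ge_atTop ({x} : Finset V)] with Y hY
      exact hY (Finset.mem_singleton_self x)
    exact (Ultrafilter.of_le (atTop : Filter (Finset V))) h1
  have hfinset : ∀ x ∈ C, (gset U (fun Y => φ Y x)).Finite := by
    intro x hx
    apply gset_finite U (B := wt x + d x)
    filter_upwards [hU x] with Y hY
    exact hφ3 Y x hY hx
  let A : V → Finset ((U : Filter (Finset V)).Germ L) := fun x =>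
    if hx : x ∈ C then (hfinset x hx).toFinset else ∅
  have hA : ∀ x ∈ C, ∀ a : Finset V → L, (a : (U : Filter (Finset V)).Germ L) ∈ A x ↔
      ∀ᶠ Y in (U : Filter (Finset V)), a Y ∈ φ Y x := by
    intro x hx a
    simp only [A, dif_pos hx]
    rw [Set.Finite.mem_toFinset, mem_gset]
  -- the first difference
  have hq : ∀ x ∈ C, ∀ y ∈ C, x ≠ y → ∃ q : Finset V → L,
      (∀ᶠ Y in (U : Filter (Finset V)), FD (φ Y x) (φ Y y) (q Y)) := by
    intro x hx y hy hxy
    have h1 : ∀ᶠ Y in (U : Filter (Finset V)), ∃ q, FD (φ Y x) (φ Y y) q := by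
      filter_upwards [hU x, hU y] with Y h1 h2
      exact FD.exists (fun h' => hxy (hφ1 Y x h1 hx y h2 hy h'))
    have h2 : ∀ Y : Finset V, ∃ q : L, (∃ q, FD (φ Y x) (φ Y y) q) → FD (φ Y x) (φ Y y) q := by
      intro Y
      by_cases h3 : ∃ q, FD (φ Y x) (φ Y y) q
      · obtain ⟨q, hq⟩ := h3
        exact ⟨q, fun _ => hq⟩
      · exact ⟨toLex (0, 0), fun h' => absurd h' h3⟩
    choose q hq using h2
    exact ⟨q, h1.mono fun Y hY => hq Y hY⟩
  have hAinj : ∀ x ∈ C, ∀ y ∈ C, A x = A y → x = y := by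
    intro x hx y hy hxy
    by_contra hne
    obtain ⟨q, hq⟩ := hq x hx y hy hne
    exact (germ_fd U (hA x hx) (hA y hy) hq).ne hxy
  have hAadj : ∀ x ∈ C, ∀ y ∈ C, (G.Adj x y ↔ (treeG (gcol U c)).Adj (A x) (A y)) := by
    intro x hx y hy
    by_cases hne : x = y
    · subst hne
      exact iff_of_false (G.loopless.irrefl _) ((treeG (gcol U c)).loopless.irrefl _)
    obtain ⟨q, hq⟩ := hq x hx y hy hne
    have hfd := germ_fd U (hA x hx) (hA y hy) hq
    constructor
    · intro hxy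
      have h1 : ∀ᶠ Y in (U : Filter (Finset V)), c (q Y) ≠ 1 ∧ NB c (φ Y x) (q Y) ∧
          NB c (φ Y y) (q Y) := by
        filter_upwards [hU x, hU y, hq] with Y h1 h2 h3
        obtain ⟨p, h4, h5⟩ := (hφ2 Y x h1 hx y h2 hy).mp hxy
        rw [h4.unique h3] at h5
        exact h5
      refine ⟨(q : (U : Filter (Finset V)).Germ L), hfd, ?_,
        (germ_nb U (hA x hx)).mpr (h1.mono fun Y hY => hY.2.1),
        (germ_nb U (hA y hy)).mpr (h1.mono fun Y hY => hY.2.2)⟩
      intro h2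
      rw [gcol_iff] at h2
      obtain ⟨Y, hY1, hY2⟩ := (h1.and h2).exists
      exact hY1.1 hY2
    · rintro ⟨p, h1, h2, h3, h4⟩
      have := h1.unique hfd
      subst this
      rw [germ_nb U (hA x hx)] at h3
      rw [germ_nb U (hA y hy)] at h4
      have h2' : ∀ᶠ Y in (U : Filter (Finset V)), ¬ c (q Y) = 1 := by
        apply Ultrafilter.eventually_not.mpr
        intro h'
        exact h2 (gcol_of U h')
      obtain ⟨Y, ⟨⟨h5, h6⟩, h7, h8⟩, h9, h10⟩ :=
        ((((hU x).and (hU y)).and (h2'.and h3)).and (h4.and hq)).exists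
      exact (hφ2 Y x h5 hx y h6 hy).mpr ⟨q Y, h10, h7, h8, h9⟩
  -- countable support
  let S : Set ((U : Filter (Finset V)).Germ L) := ⋃ x : V, (A x : Set _)
  have hS : S.Countable := Set.countable_iUnion fun x => (A x).finite_toSet.countable
  obtain ⟨g, hg1, hg2⟩ := countable_coord (gcol U c) S hS
  have hAS : ∀ x, ∀ t ∈ A x, t ∈ S := fun x t ht => Set.mem_iUnion.mpr ⟨x, ht⟩
  refine ⟨fun x => (A x).image g, ?_, ?_⟩
  · intro x hx y hy hxy
    exact hAinj x hx y hy (inj_image hg1 (hAS x) (hAS y) hxy)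
  · intro x hx y hy
    rw [hAadj x hx y hy]
    exact (adj_image hg1 hg2 (hAS x) (hAS y)).symm

end

end Pool.Agent.V11293.DH
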