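import Pool.Agent.V11293.DH.Level

namespace Pool.Agent.V11293.DH

open SimpleGraph

universe u

variable {V : Type u} {G : SimpleGraph V} {r : V} {C : Set V} {d : V → ℕ}

open Classical in
theorem prune_mod (hG : DHW G) (h : Lev G r C d) (X : Finset V) (hXC : ∀ x ∈ X, x ∈ C)
    {k : ℕ} (hmax : ∀ x ∈ X, d x ≤ k) {v : V} (hvX : v ∈ X) (hvk : d v = k)
    (hmin : ∀ x ∈ X, d x = k → (X.filter (fun z => G.Adj v z ∧ d z + 1 = d v)).card ≤
      (X.filter (fun z => G.Adj x z ∧ d z + 1 = d x)).card)
    (hB : ∀ w ∈ X, G.Adj v w → d w ≠ k)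
    {a b z : V} (haX : a ∈ X) (hbX : b ∈ X) (hva : G.Adj v a) (hvb : G.Adj v b) (hab : a ≠ b)
    (hzX : z ∈ X) (hzS : ¬ G.Adj v z) (haz : G.Adj a z) : G.Adj b z := by
  by_contra hbz
  have hvC := hXC v hvX
  have haC := hXC a haX
  have hbC := hXC b hbX
  have hzC := hXC z hzX
  have lev : ∀ e ∈ X, G.Adj v e → d e + 1 = k := by
    intro e heX hve
    have h1 := h.adj_le (hXC e heX) hve.symm
    have h2 := hB e heX hve
    have h3 := hmax e heX
    omega
  have hda := lev a haX hva
  have hdb := lev b hbX hvb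
  have ha0 : d a ≠ 0 := by
    intro h0
    have h1 := h.eq_root haC h0
    have h2 := h.eq_root hbC (by omega)
    exact hab (h1.trans h2.symm)
  obtain ⟨y, hyC, hay, hdy⟩ := h.pred haC (k := d a - 1) (by omega)
  have hby : G.Adj b y := h.f2 hG hvC hva hvb (by omega) (by omega) hay (by omega)
  have hvy : ¬ G.Adj v y := by
    intro h'
    have := h.adj_le hyC h'.symm
    omega
  have h1 := h.adj_le hzC haz.symm
  have h2 := h.adj_le haC haz
  have h3 : d z + 1 = d a ∨ d z = d a ∨ d z = d a + 1 := by omega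
  rcases h3 with h3 | h3 | h3
  · exact hbz (h.f2 hG hvC hva hvb (by omega) (by omega) haz h3)
  · have hzy : G.Adj z y := h.f1 hG haC haz h3 hay (by omega)
    by_cases hab' : G.Adj a b
    · exact p4 hG hzy hby.symm hvb.symm (fun h' => hbz h'.symm) (fun h' => hvy h'.symm)
        (fun h' => hzS h'.symm) haz hva.symm
    · exact p4 hG haz.symm hva.symm hvb (fun h' => hzS h'.symm) hab' (fun h' => hbz h'.symm)
        hzy.symm hby.symm
  · have hzk : d z = k := by omega
    have hyz : ¬ G.Adj y z := by
      intro h'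
      have := h.adj_le hyC h'
      omega
    have : ∃ e ∈ X, G.Adj z e ∧ d e + 1 = k ∧ ¬ G.Adj v e := by
      by_contra hno
      push Not at hno
      have hsub : X.filter (fun e => G.Adj z e ∧ d e + 1 = d z) ⊆
          (X.filter (fun e => G.Adj v e ∧ d e + 1 = d v)).erase b := by
        intro e he
        rw [Finset.mem_filter] at he
        rw [Finset.mem_erase, Finset.mem_filter]
        refine ⟨?_, he.1, hno e he.1 he.2.1 (by omega), by omega⟩
        rintro rfl
        exact hbz he.2.1.symm
      have hbm : b ∈ X.filter (fun e => G.Adj v e ∧ d e + 1 = d v) := by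
        rw [Finset.mem_filter]; exact ⟨hbX, hvb, by omega⟩
      have h4 := Finset.card_le_card hsub
      rw [Finset.card_erase_of_mem hbm] at h4
      have h5 := hmin z hzX hzk
      have h6 : 0 < (X.filter (fun e => G.Adj v e ∧ d e + 1 = d v)).card :=
        Finset.card_pos.mpr ⟨b, hbm⟩
      omega
    obtain ⟨e, heX, hze, hde, hve⟩ := this
    have hey : G.Adj e y := h.f2 hG hzC haz.symm hze (by omega) (by omega) hay (by omega)
    by_cases hbe : G.Adj b e
    · exact p4 hG hvb hbe hze.symm hve hbz hzS hva.symm haz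
    · by_cases hab' : G.Adj a b
      · by_cases hae : G.Adj a e
        · refine p5 hG hvb hby hey.symm hze.symm hvy hve hzS hbz hyz hva.symm haz ?_
          rintro rfl
          exact hbz hvb.symm
        · exact p4 hG hab'.symm haz hze hbz hae hbe hby.symm hey.symm
      · by_cases hae : G.Adj a e
        · exact p4 hG hae.symm hva.symm hvb (fun h' => hve h'.symm) hab'
            (fun h' => hbe h'.symm) hey.symm hby.symm
        · refine p5 hG hvb.symm hva haz hze (fun h' => hab' h'.symm) hbz hbe hve hae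
            hby.symm hey.symm ?_
          rintro rfl
          exact hve hvb

open Classical in
theorem prune (hG : DHW G) (h : Lev G r C d) (X : Finset V) (hXC : ∀ x ∈ X, x ∈ C)
    (hGC : ∀ x ∈ X, x ≠ r → ∃ y ∈ X, G.Adj x y ∧ d y + 1 = d x)
    (hcard : 2 ≤ X.card) :
    ∃ u ∈ X, ∃ v ∈ X, u ≠ v ∧ v ≠ r ∧ ((∀ z ∈ X, (G.Adj v z ↔ z = u)) ∨
      (u ≠ r ∧ d u = d v ∧ ∀ z ∈ X, z ≠ u → z ≠ v → (G.Adj u z ↔ G.Adj v z))) := by
  have hXne : X.Nonempty := Finset.card_pos.mp (by omega)
  obtain ⟨x0, hx0X, hx0⟩ := Finset.exists_max_image X d hXne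
  set k := d x0 with hk
  have hk1 : 1 ≤ k := by
    obtain ⟨x, hxX, hxr⟩ : ∃ x ∈ X, x ≠ r := by
      by_contra hno
      push Not at hno
      have : X ⊆ {r} := fun x hx => Finset.mem_singleton.mpr (hno x hx)
      have := Finset.card_le_card this
      simp at this
      omega
    obtain ⟨y, _, _, hy⟩ := hGC x hxX hxr
    have := hx0 x hxX
    omega
  have hTne : (X.filter (fun x => d x = k)).Nonempty := ⟨x0, Finset.mem_filter.mpr ⟨hx0X, rfl⟩⟩
  obtain ⟨v, hvT, hmin⟩ := Finset.exists_min_image (X.filter (fun x => d x = k))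
    (fun x => (X.filter (fun z => G.Adj x z ∧ d z + 1 = d x)).card) hTne
  rw [Finset.mem_filter] at hvT
  obtain ⟨hvX, hvk⟩ := hvT
  have hmin' : ∀ x ∈ X, d x = k → (X.filter (fun z => G.Adj v z ∧ d z + 1 = d v)).card ≤
      (X.filter (fun z => G.Adj x z ∧ d z + 1 = d x)).card :=
    fun x hx hxk => hmin x (Finset.mem_filter.mpr ⟨hx, hxk⟩)
  have hvr : v ≠ r := by
    rintro rfl
    have := h.d_root
    omega
  by_cases hA : ∃ w ∈ X, G.Adj v w ∧ d w = k
  · -- Case A
    obtain ⟨w, hwX, hvw, hwk⟩ := hA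
    let R : V → V → Prop := fun a b => G.Adj a b ∧ b ∈ X ∧ d b = k
    let S : Finset V := X.filter (fun x => Relation.ReflTransGen R v x)
    have hSk : ∀ x, Relation.ReflTransGen R v x → d x = k ∧ x ∈ X := by
      intro x hx
      induction hx with
      | refl => exact ⟨hvk, hvX⟩
      | tail _ hbc _ => exact ⟨hbc.2.2, hbc.2.1⟩
    have hvS : v ∈ S := Finset.mem_filter.mpr ⟨hvX, Relation.ReflTransGen.refl⟩
    have hwS : w ∈ S := Finset.mem_filter.mpr ⟨hwX, Relation.ReflTransGen.single ⟨hvw, hwX, hwk⟩⟩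
    have hconn : ∀ x, Relation.ReflTransGen R v x → ∀ y, d y + 1 = k → (G.Adj v y ↔ G.Adj x y) := by
      intro x hx
      induction hx with
      | refl => intro y _; exact Iff.rfl
      | tail hab hbc ih =>
        rename_i b c'
        intro y hy
        rw [ih y hy]
        have hb := hSk b hab
        have hbC := hXC b hb.2
        have hcC := hXC c' hbc.2.1
        constructor
        · intro h1
          exact h.f1 hG hbC hbc.1 (by rw [hbc.2.2, hb.1]) h1 (by rw [hb.1]; exact hy)
        · intro h1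
          exact h.f1 hG hcC hbc.1.symm (by rw [hbc.2.2, hb.1]) h1 (by rw [hbc.2.2]; exact hy)
    have hP : P4F G S := by
      intro a ha b hb c hc e he h1 h2 h3 n1 n2 n3
      have ha' := (Finset.mem_filter.mp ha).2
      have he' := (Finset.mem_filter.mp he).2
      have hka := hSk a ha'
      obtain ⟨y, hyC, hay, hdy⟩ := h.pred (hXC a hka.2) (k := k - 1) (by omega)
      have h4 : G.Adj e y := (hconn e he' y (by omega)).mp ((hconn a ha' y (by omega)).mpr hay)
      exact p4 hG h1 h2 h3 n1 n2 n3 hay.symm h4.symm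
    have hS2 : 2 ≤ S.card := by
      have : ({v, w} : Finset V) ⊆ S := by
        intro x hx
        simp only [Finset.mem_insert, Finset.mem_singleton] at hx
        rcases hx with rfl | rfl
        · exact hvS
        · exact hwS
      have h5 := Finset.card_le_card this
      rw [Finset.card_pair hvw.ne] at h5
      exact h5
    obtain ⟨u, hu, v', hv', huv, htw⟩ := twins_of_P4F G S.card S rfl hS2 hP
    have hu' := (Finset.mem_filter.mp hu).2
    have hv'' := (Finset.mem_filter.mp hv').2
    have hku := hSk u hu'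
    have hkv := hSk v' hv''
    refine ⟨u, hku.2, v', hkv.2, huv, ?_, Or.inr ⟨?_, by rw [hku.1, hkv.1], ?_⟩⟩
    · rintro rfl
      have := h.d_root
      omega
    · rintro rfl
      have := h.d_root
      omega
    · have key : ∀ p q : V, Relation.ReflTransGen R v p → Relation.ReflTransGen R v q →
          ∀ z ∈ X, z ∉ S → G.Adj p z → G.Adj q z := by
        intro p q hp hq z hzX hzS hpz
        have hkp := hSk p hp
        have h1 := hx0 z hzX
        have h2 := h.adj_le (hXC z hzX) hpz.symm
        by_cases hzk : d z = k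
        · exact absurd (Finset.mem_filter.mpr ⟨hzX, hp.tail ⟨hpz, hzX, hzk⟩⟩) hzS
        · exact (hconn q hq z (by omega)).mp ((hconn p hp z (by omega)).mpr hpz)
      intro z hzX hzu hzv
      by_cases hzS : z ∈ S
      · exact htw z hzS hzu hzv
      · exact ⟨key u v' hu' hv'' z hzX hzS, key v' u hv'' hu' z hzX hzS⟩
  · -- Case B
    push Not at hA
    have hB : ∀ w ∈ X, G.Adj v w → d w ≠ k := fun w hw hvw => hA w hw hvw
    let S : Finset V := X.filter (fun x => G.Adj v x)
    have hSne : S.Nonempty := by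
      obtain ⟨y, hyX, hvy, _⟩ := hGC v hvX hvr
      exact ⟨y, Finset.mem_filter.mpr ⟨hyX, hvy⟩⟩
    have hlev : ∀ e ∈ X, G.Adj v e → d e + 1 = k := by
      intro e heX hve
      have h1 := h.adj_le (hXC e heX) hve.symm
      have h2 := hB e heX hve
      have h3 := hx0 e heX
      omega
    by_cases hS1 : S.card = 1
    · obtain ⟨u, hu⟩ := Finset.card_eq_one.mp hS1
      have huS : u ∈ S := by rw [hu]; exact Finset.mem_singleton_self u
      have huS' := Finset.mem_filter.mp huS
      refine ⟨u, huS'.1, v, hvX, huS'.2.ne', hvr, Or.inl fun z hz => ?_⟩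
      constructor
      · intro h1
        have : z ∈ S := Finset.mem_filter.mpr ⟨hz, h1⟩
        rw [hu] at this
        exact Finset.mem_singleton.mp this
      · rintro rfl
        exact huS'.2
    · have hS2 : 2 ≤ S.card := by
        have := Finset.card_pos.mpr hSne
        omega
      have hP : P4F G S := by
        intro a ha b hb c hc e he h1 h2 h3 n1 n2 n3
        exact p4 hG h1 h2 h3 n1 n2 n3 (Finset.mem_filter.mp ha).2 (Finset.mem_filter.mp he).2
      obtain ⟨u, hu, v', hv', huv, htw⟩ := twins_of_P4F G S.card S rfl hS2 hP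
      obtain ⟨huX, hvu⟩ := Finset.mem_filter.mp hu
      obtain ⟨hv'X, hvv'⟩ := Finset.mem_filter.mp hv'
      have hdu := hlev u huX hvu
      have hdv := hlev v' hv'X hvv'
      have hne : ∀ p q : V, p ∈ X → q ∈ X → p ≠ q → d p + 1 = k → d q + 1 = k → p ≠ r := by
        rintro p q hp hq hpq h1 h2 rfl
        have h0 := h.d_root
        exact hpq (h.eq_root (hXC q hq) (by omega)).symm
      refine ⟨u, huX, v', hv'X, huv, hne v' u hv'X huX huv.symm hdv hdu,
        Or.inr ⟨hne u v' huX hv'X huv hdu hdv, by omega, ?_⟩⟩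
      intro z hzX hzu hzv
      by_cases hzS : G.Adj v z
      · exact htw z (Finset.mem_filter.mpr ⟨hzX, hzS⟩) hzu hzv
      · exact ⟨fun h1 => prune_mod hG h X hXC hx0 hvX hvk hmin' hB huX hv'X hvu hvv' huv hzX hzS h1,
          fun h1 => prune_mod hG h X hXC hx0 hvX hvk hmin' hB hv'X huX hvv' hvu huv.symm hzX hzS h1⟩

end Pool.Agent.V11293.DH
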