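import Pool.Agent.V11293.DH.Limit

namespace Pool.Agent.V11293.DH

open SimpleGraph

universe u w

section low
variable {L : Type w} [LinearOrder L] {c : L → Fin 3}

theorem fd_insert_low {A B : Finset L} {p q : L} (hA : ∀ t ∈ A, p < t) (hB : ∀ t ∈ B, p < t)
    (h : FD A B q) : FD (insert p A) (insert p B) q := by
  have hpq : p < q := h.mem_or.elim (hA q) (hB q)
  refine ⟨?_, ?_⟩
  · have h1 := h.1
    rw [Finset.mem_insert, Finset.mem_insert]
    have h2 : q ≠ p := hpq.ne'
    tauto
  · intro t ht
    have h1 := h.2 t ht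
    rw [Finset.mem_insert, Finset.mem_insert]
    tauto

theorem nb_insert_low {A : Finset L} {p q : L} (hpq : p < q) :
    NB c (insert p A) q ↔ NB c A q := by
  constructor
  · intro h t ht hqt
    exact h t (Finset.mem_insert_of_mem ht) hqt
  · intro h t ht hqt
    rcases Finset.mem_insert.mp ht with rfl | ht
    · exact absurd hqt (not_lt.mpr hpq.le)
    · exact h t ht hqt

theorem adj_insert_low {A B : Finset L} {p : L} (hA : ∀ t ∈ A, p < t) (hB : ∀ t ∈ B, p < t) :
    (treeG c).Adj (insert p A) (insert p B) ↔ (treeG c).Adj A B := by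
  by_cases hAB : A = B
  · subst hAB
    exact iff_of_false ((treeG c).loopless.irrefl _) ((treeG c).loopless.irrefl _)
  obtain ⟨q, hq⟩ := FD.exists hAB
  have hpq : p < q := hq.mem_or.elim (hA q) (hB q)
  have hq' := fd_insert_low hA hB hq
  constructor
  · rintro ⟨q1, h1, h2, h3, h4⟩
    have := h1.unique hq'
    subst this
    exact ⟨q1, hq, h2, (nb_insert_low hpq).mp h3, (nb_insert_low hpq).mp h4⟩
  · rintro ⟨q1, h1, h2, h3, h4⟩
    have := h1.unique hq
    subst this
    exact ⟨q1, hq', h2, (nb_insert_low hpq).mpr h3, (nb_insert_low hpq).mpr h4⟩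

theorem inj_insert_low {A B : Finset L} {p : L} (hA : ∀ t ∈ A, p < t) (hB : ∀ t ∈ B, p < t)
    (h : insert p A = insert p B) : A = B := by
  by_contra hAB
  obtain ⟨q, hq⟩ := FD.exists hAB
  exact (fd_insert_low hA hB hq).ne h

theorem fd_low_ne {A B : Finset L} {p p' : L} (hA : ∀ t ∈ A, p < t) (hB : ∀ t ∈ B, p < t)
    (hpp : p < p') : FD (insert p A) (insert p' B) p := by
  refine ⟨?_, ?_⟩
  · intro h
    have h1 := h.mp (Finset.mem_insert_self _ _)
    rcases Finset.mem_insert.mp h1 with h1 | h1
    · exact hpp.ne h1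
    · exact lt_irrefl _ (hB p h1)
  · intro t ht
    rw [Finset.mem_insert, Finset.mem_insert]
    constructor
    · rintro (h | h)
      · exact absurd h ht.ne
      · exact absurd (hA t h) (not_lt.mpr ht.le)
    · rintro (h | h)
      · exact absurd h (ht.trans hpp).ne
      · exact absurd (hB t h) (not_lt.mpr ht.le)

end low

section
variable {V : Type u} {G : SimpleGraph V}

theorem lev_of_root (G : SimpleGraph V) (r : V) :
    Lev G r {x | G.Reachable x r} (fun x => G.dist x r) where
  walk := by
    intro x hx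
    obtain ⟨p, hp⟩ := SimpleGraph.Reachable.exists_walk_length_eq_dist hx
    rw [← hp]
    exact Wk.of_walk_univ p
  le := by
    intro x _ j hj
    obtain ⟨p, hp⟩ := hj.to_walk_univ
    rw [← hp]
    exact dist_le p
  closed := by
    intro x hx y hxy
    exact hxy.symm.reachable.trans hx
  root := Reachable.refl r

/-- colours on the sum order -/
def scol : ℕ ⊕ₗ QL → Fin 3 := fun t => Sum.elim (fun _ => 1) qcol (ofLex t)

theorem univ_embed [Countable V] (hG : DHW G) : Nonempty (G ↪g treeG qcol) := by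
  classical
  -- one embedding for each root
  have h1 : ∀ r : V, ∃ φ : V → Finset QL,
      (∀ x, G.Reachable x r → ∀ y, G.Reachable y r → φ x = φ y → x = y) ∧
      ∀ x, G.Reachable x r → ∀ y, G.Reachable y r →
        (G.Adj x y ↔ (treeG qcol).Adj (φ x) (φ y)) :=
    fun r => comp_embed hG (lev_of_root G r)
  choose φ hφ1 hφ2 using h1
  let root : V → V := fun x => (G.connectedComponentMk x).out
  have hroot : ∀ x, G.Reachable x (root x) := by
    intro x
    apply ConnectedComponent.exact
    exact (Quot.out_eq (G.connectedComponentMk x)).symm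
  have hroot2 : ∀ x y, G.Reachable x y → root x = root y := by
    intro x y hxy
    simp only [root]
    rw [ConnectedComponent.sound hxy]
  obtain ⟨ι, hι⟩ := Countable.exists_injective_nat V
  -- coordinates in the sum order
  let inr' : QL → ℕ ⊕ₗ QL := fun t => toLex (Sum.inr t)
  let inl' : ℕ → ℕ ⊕ₗ QL := fun n => toLex (Sum.inl n)
  have hinr : StrictMonoOn inr' Set.univ := by
    intro s _ t _ hst
    exact Sum.Lex.inr_lt_inr_iff.mpr hst
  have hcr : ∀ t ∈ (Set.univ : Set QL), scol (inr' t) = qcol t := fun t _ => rfl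
  let Φ : V → Finset (ℕ ⊕ₗ QL) := fun x =>
    insert (inl' (ι (root x))) ((φ (root x) x).image inr')
  have hlow : ∀ (n : ℕ) (A : Finset QL), ∀ t ∈ A.image inr', inl' n < t := by
    intro n A t ht
    obtain ⟨s, _, rfl⟩ := Finset.mem_image.mp ht
    exact Sum.Lex.inl_lt_inr n s
  have hΦinj : ∀ x y, Φ x = Φ y → x = y := by
    intro x y hxy
    by_cases h : root x = root y
    · simp only [Φ] at hxy
      rw [← h] at hxy
      have h2 := inj_insert_low (hlow _ _) (hlow _ _) hxy
      have h3 := inj_image hinr (fun _ _ => trivial) (fun _ _ => trivial) h2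
      exact hφ1 (root x) x (hroot x) y (h ▸ hroot y) h3
    · exfalso
      have hne : ι (root x) ≠ ι (root y) := fun h' => h (hι h')
      rcases lt_or_gt_of_ne hne with hlt | hlt
      · have h2 : inl' (ι (root x)) < inl' (ι (root y)) := Sum.Lex.inl_lt_inl_iff.mpr hlt
        exact (fd_low_ne (hlow _ (φ (root x) x)) (hlow _ (φ (root y) y)) h2).ne hxy
      · have h2 : inl' (ι (root y)) < inl' (ι (root x)) := Sum.Lex.inl_lt_inl_iff.mpr hlt
        exact (fd_low_ne (hlow _ (φ (root y) y)) (hlow _ (φ (root x) x)) h2).ne hxy.symm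
  have hΦadj : ∀ x y, G.Adj x y ↔ (treeG scol).Adj (Φ x) (Φ y) := by
    intro x y
    by_cases h : root x = root y
    · simp only [Φ]
      rw [← h]
      have h2 := hφ2 (root x) x (hroot x) y (h ▸ hroot y)
      have h3 := adj_image (A := φ (root x) x) (B := φ (root x) y) hinr hcr
        (fun _ _ => trivial) (fun _ _ => trivial)
      have h4 := adj_insert_low (c := scol) (hlow (ι (root x)) (φ (root x) x))
        (hlow (ι (root x)) (φ (root x) y))
      exact h2.trans (h3.symm.trans h4.symm)
    · have hne : ι (root x) ≠ ι (root y) := fun h' => h (hι h')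
      refine iff_of_false (fun hxy => h (hroot2 x y hxy.reachable)) ?_
      rintro ⟨q, hq1, hq2, -, -⟩
      rcases lt_or_gt_of_ne hne with hlt | hlt
      · have h2 : inl' (ι (root x)) < inl' (ι (root y)) := Sum.Lex.inl_lt_inl_iff.mpr hlt
        have h3 := fd_low_ne (hlow _ (φ (root x) x)) (hlow _ (φ (root y) y)) h2
        rw [hq1.unique h3] at hq2
        exact hq2 rfl
      · have h2 : inl' (ι (root y)) < inl' (ι (root x)) := Sum.Lex.inl_lt_inl_iff.mpr hlt
        have h3 := fd_low_ne (hlow _ (φ (root y) y)) (hlow _ (φ (root x) x)) h2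
        rw [hq1.unique h3.symm] at hq2
        exact hq2 rfl
  let S : Set (ℕ ⊕ₗ QL) := ⋃ x : V, (Φ x : Set _)
  have hS : S.Countable := Set.countable_iUnion fun x => (Φ x).finite_toSet.countable
  obtain ⟨g, hg1, hg2⟩ := countable_coord scol S hS
  have hΦS : ∀ x, ∀ t ∈ Φ x, t ∈ S := fun x t ht => Set.mem_iUnion.mpr ⟨x, ht⟩
  refine ⟨⟨⟨fun x => (Φ x).image g, ?_⟩, ?_⟩⟩
  · intro x y hxy
    exact hΦinj x y (inj_image hg1 (hΦS x) (hΦS y) hxy)
  · intro x y
    rw [hΦadj x y]
    exact adj_image hg1 hg2 (hΦS x) (hΦS y)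

end

end Pool.Agent.V11293.DH
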